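import Pool.Agent.H47.PL.Stmt
import Pool.Agent.H97.RK.All
import Pool.Agent.H97.RK.DX

/-!
Planted random k-CNFs and backtracking search at the scale of SETH (MP_c62aed_lc): auxiliary
definitions and targets.
-/

set_option autoImplicit false

namespace Pool.Agent.H47.PL

open Finset Pool.Agent.H97.RK

/-! ### Definitions -/

section

variable {n k m : ℕ}

/-- the lines `0, .., S - 1` are correct -/
def Der (F : Fml n k m) (S : ℕ) (line : ℕ → Clause n) (rule : ℕ → Rule n) : Prop :=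
  ∀ i, i < S → Correct F line i (rule i)

/-- the assignment `τ` extends `L` -/
def Agr (τ : Fin n → Bool) (L : Finset (Fin n × Bool)) : Prop := ∀ l ∈ L, τ l.1 = l.2

/-- `L` is consistent -/
def Con (L : Finset (Fin n × Bool)) : Prop := ∀ v b, (v, b) ∈ L → (v, !b) ∉ L

/-- the variables of `L` -/
def dm (L : Finset (Fin n × Bool)) : Finset (Fin n) := L.image Prod.fst

open Classical in
/-- the number of the satisfying assignments -/
noncomputable def nsol (F : Fml n k m) : ℕ := (univ.filter fun τ => Sat F τ).card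

open Classical in
/-- the number of the satisfying assignments which extend `L` -/
noncomputable def nsolL (F : Fml n k m) (L : Finset (Fin n × Bool)) : ℕ :=
  (univ.filter fun τ => Sat F τ ∧ Agr τ L).card

/-- the interface between the adversary and the search: `Res L W`: at the partial assignment `L`
the variables in `W` are reserved -/
structure Rsv (F : Fml n k m) (D e : ℕ) (Ex : Finset (Fin n × Bool) → Prop)
    (Res : Finset (Fin n × Bool) → Finset (Fin n) → Prop) : Prop where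
  init : Res ∅ ∅
  card : ∀ L W, Res L W → W.card ≤ e
  step : ∀ L W v b τ, Res L W → L.card < D → v ∉ dm L → Sat F τ → Agr τ (insert (v, b) L) →
    ∃ W', W ⊆ W' ∧ Res (insert (v, b) L) W'
  free : ∀ L W v b τ, Res L W → L.card < D → v ∉ dm L → v ∉ W → Sat F τ →
    Agr τ (insert (v, b) L) → ¬ Ex (insert (v, !b) L)

/-- follow the protocol: the bits tell whether the second value is taken -/
def walk (F : Fml n k m) : Prot n k m → List Bool → Finset (Fin n × Bool) →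
    Finset (Fin n × Bool)
  | Prot.leaf, _, L => L
  | Prot.read c f, β, L => walk F (f fun i => (F c i).2) β L
  | Prot.node v a f, β, L =>
    if (v, true) ∈ L then walk F (f true) β L
    else if (v, false) ∈ L then walk F (f false) β L
    else match β with
      | [] => L
      | b :: β' => walk F (f (xor a b)) β' (insert (v, xor a b) L)

/-- as `FindP`, but at the leaf all variables have a value -/
def FindD (F : Fml n k m) (Ex : Finset (Fin n × Bool) → Prop) :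
    Prot n k m → Finset (Fin n × Bool) → Prop
  | Prot.leaf, L => Done F L ∧ ∀ v, v ∈ dm L
  | Prot.read c f, L => FindD F Ex (f fun i => (F c i).2) L
  | Prot.node v a f, L => ∃ b, (v, !b) ∉ L ∧ ((v, b) ∈ L ∨ a = b ∨ Ex (insert (v, !b) L)) ∧
      FindD F Ex (f b) (insert (v, b) L)

/-- ask the variables of the list -/
def chain : List (Fin n) → Prot n k m
  | [] => Prot.leaf
  | v :: l => Prot.node v false fun _ => chain l

/-- ask all variables at each leaf -/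
def pad : Prot n k m → Prot n k m
  | Prot.leaf => chain (List.finRange n)
  | Prot.read c f => Prot.read c fun x => pad (f x)
  | Prot.node v a f => Prot.node v a fun b => pad (f b)

/-- the formula with the variables `g` and the signs `x` -/
def mk (g : Fin m → Fin k → Fin n) (x : Fin m → Fin k → Bool) : Fml n k m :=
  fun c i => (g c i, x c i)

open Classical in
/-- the clauses with distinct variables which are satisfied by `σ` -/
noncomputable def Os (n k : ℕ) (σ : Fin n → Bool) : Finset (Fin k → Fin n × Bool) :=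
  (Om n k).filter fun g => ∃ i, σ (g i).1 = (g i).2

end

/-! ### The adversary -/

/-- (STD) one step of the path. -/
def T_STD : Prop :=
  ∀ (n k m : ℕ) (F : Fml n k m) (j t d e s₀ : ℕ), Par F j t d e s₀ →
    ∀ (S : ℕ) (line : ℕ → Clause n) (rule : ℕ → Rule n), Der F S line rule →
    ∀ (i : ℕ) (y : Fin n → Bool) (A W : Finset (Fin n)) (J : Finset (Fin m)), i < S →
    St F j t y A W J → Falsified (line i) y → vs (line i) ⊆ A → A.card + 1 + e + d ≤ n →
    ∃ (i' : ℕ) (y' : Fin n → Bool) (A' W' : Finset (Fin n)) (J' : Finset (Fin m))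
      (q : List (Fin n)), i' < i ∧ St F j t y' A' W' J' ∧ Falsified (line i') y' ∧
      vs (line i') ⊆ A' ∧ A' = A ∪ q.toFinset ∧ A'.card ≤ A.card + 1 ∧
      (∀ u ∈ A, y' u = y u) ∧
      dst y' y + J.card ≤ J'.card ∧ ∀ r l, Path rule r i l → Path rule r i' (q ++ l)

/-- (RND) the path ends in a wide line; the variables in `A` are fixed. -/
def T_RND : Prop :=
  ∀ (n k m : ℕ) (F : Fml n k m) (j t d e s₀ : ℕ), Par F j t d e s₀ → 1 ≤ d →
    ∀ (S : ℕ) (line : ℕ → Clause n) (rule : ℕ → Rule n), Der F S line rule →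
    ∀ R h r : ℕ, r < S → (∀ (i : ℕ) (l : List (Fin n)), Path rule r i l →
      (univ.filter fun v => R < l.count v).card ≤ h) →
    ∀ (y : Fin n → Bool) (A W : Finset (Fin n)) (J : Finset (Fin m)), St F j t y A W J →
    Falsified (line r) y → vs (line r) ⊆ A → ∀ x : Fin n → Bool, (∀ u ∈ A ∪ W, x u = y u) →
    ∃ i, i < S ∧ ∃ y' : Fin n → Bool, Falsified (line i) y' ∧
      n ≤ (A ∪ vs (line i)).card + (h + 3 * d) ∧ dst y' x ≤ 2 * t * (n * R / d + 1)

/-- (NC1) a derivation of a line which is false in a state is long. -/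
def T_NC1 : Prop :=
  ∀ (n k m : ℕ) (F : Fml n k m) (j t d e s₀ : ℕ), Par F j t d e s₀ → 1 ≤ d →
    ∀ (S : ℕ) (line : ℕ → Clause n) (rule : ℕ → Rule n), Der F S line rule →
    ∀ R h r : ℕ, r < S → (∀ (i : ℕ) (l : List (Fin n)), Path rule r i l →
      (univ.filter fun v => R < l.count v).card ≤ h) →
    ∀ (y : Fin n → Bool) (A W : Finset (Fin n)) (J : Finset (Fin m)), St F j t y A W J →
    Falsified (line r) y → vs (line r) ⊆ A →
    2 ^ n ≤ S * (2 ^ (A.card + e + h + 3 * d) * bl n (2 * t * (n * R / d + 1)))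

/-- (MDD) a line of medium strength. -/
def T_MDD : Prop :=
  ∀ (n k m : ℕ) (F : Fml n k m) (j t d e s₀ : ℕ), Par F j t d e s₀ →
    ∀ (S : ℕ) (line : ℕ → Clause n) (rule : ℕ → Rule n), Der F S line rule →
    ∀ (y : Fin n → Bool) (A W : Finset (Fin n)) (J : Finset (Fin m)), St F j t y A W J →
    ∀ r, r < S → Falsified (line r) y → vs (line r) ⊆ A →
    ∃ i, i < S ∧ ∃ z : Fin n → Bool, (∀ u ∈ A, z u = y u) ∧ Falsified (line i) z ∧
      n ≤ (A ∪ vs (line i)).card + (d + 2 * t)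

/-- (TAR) more variables are asked. -/
def T_TAR : Prop :=
  ∀ (n k m : ℕ) (F : Fml n k m) (j t d e s₀ : ℕ), Par F j t d e s₀ →
    ∀ (y : Fin n → Bool) (A W : Finset (Fin n)) (J : Finset (Fin m)), St F j t y A W J →
    ∀ (x : Fin n → Bool) (B : Finset (Fin n)), (∀ u ∈ A ∪ W, x u = y u) →
    (A ∪ B).card + e + d ≤ n →
    ∃ (y' : Fin n → Bool) (W' : Finset (Fin n)) (J' : Finset (Fin m)),
      St F j t y' (A ∪ B) W' J' ∧ (∀ u ∈ A, y' u = y u) ∧ dst y' x ≤ t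

/-- (CR2) counting restrictions on `V`. -/
def T_CR2 : Prop :=
  ∀ (n : ℕ) (V : Finset (Fin n)) (x₀ : Fin n → Bool) (S g q a : ℕ) (line : ℕ → Clause n),
    (∀ (x : Fin n → Bool) (B : Finset (Fin n)), (∀ u, u ∉ V → x u = x₀ u) → B ⊆ V →
      B.card + a ≤ V.card → ∃ i, i < S ∧ ∃ y z : Fin n → Bool, dst y x ≤ q ∧
        (∀ u ∈ B, z u = y u) ∧ Falsified (line i) z ∧
        V.card ≤ (B ∪ (vs (line i) ∩ V)).card + g) →
    3 ^ V.card ≤ S * (2 ^ V.card * bl V.card g * bl V.card q) + 2 ^ V.card * bl V.card a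

/-- (NC2) a derivation of a line which is false in a state is long. -/
def T_NC2 : Prop :=
  ∀ (n k m : ℕ) (F : Fml n k m) (j t d e s₀ : ℕ), Par F j t d e s₀ →
    ∀ (S : ℕ) (line : ℕ → Clause n) (rule : ℕ → Rule n), Der F S line rule →
    ∀ (y : Fin n → Bool) (A W : Finset (Fin n)) (J : Finset (Fin m)), St F j t y A W J →
    ∀ r, r < S → Falsified (line r) y → vs (line r) ⊆ A →
    ∃ N, n ≤ A.card + e + N ∧ N ≤ n ∧
      3 ^ N ≤ S * (2 ^ N * bl N (d + 2 * t) * bl N t) + 2 ^ N * bl N (e + d)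

/-- (SOL) the states of the solutions. -/
def T_SOL : Prop :=
  ∀ (n k m : ℕ) (F : Fml n k m) (j t d e s₀ : ℕ), Par F j t d e s₀ →
    (∀ τ, St F j t τ ∅ ∅ ∅) ∧
    (∀ (τ τ' : Fin n → Bool) (A W : Finset (Fin n)) (J : Finset (Fin m)), St F j t τ A W J →
      Sat F τ' → (∀ u ∈ A, τ' u = τ u) → St F j t τ' A W J) ∧
    (∀ (τ : Fin n → Bool) (A W : Finset (Fin n)) (J : Finset (Fin m)) (v : Fin n),
      St F j t τ A W J → Sat F τ → A.card + 1 + e + d ≤ n →
      ∃ (W' : Finset (Fin n)) (J' : Finset (Fin m)), W ⊆ W' ∧ St F j t τ (insert v A) W' J') ∧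
    (∀ (τ : Fin n → Bool) (A W : Finset (Fin n)) (J : Finset (Fin m)) (v : Fin n),
      St F j t τ A W J → v ∉ A ∪ W → A.card + 1 + e + d ≤ n →
      ∃ (y : Fin n → Bool) (W' : Finset (Fin n)) (J' : Finset (Fin m)),
        St F j t y (insert v A) W' J' ∧ y v = !τ v ∧ ∀ u ∈ A, y u = τ u)

/-- (RSV) the interface: `Ex` is excluded in the states by (NC1) and (NC2). -/
def T_RSV : Prop :=
  ∀ (n k m : ℕ) (F : Fml n k m) (j t d e s₀ : ℕ), Par F j t d e s₀ → 1 ≤ d →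
    ∀ (K s D : ℕ) (ρ : ℝ), 1 ≤ K → 0 ≤ ρ → D + e + d ≤ n →
    (∀ S, S ≤ s → 2 ^ n ≤ S * (2 ^ (D + e + ⌊ρ * n⌋₊ + 3 * d) *
      bl n (2 * t * (n * (k / K) / d + 1))) → ∀ N, n ≤ D + e + N → N ≤ n →
      3 ^ N ≤ S * (2 ^ N * bl N (d + 2 * t) * bl N t) + 2 ^ N * bl N (e + d) → False) →
    ∃ Res, Rsv F D e (Excl F K ρ s) Res

/-! ### The search -/

open Classical in
/-- (SEQ) a list of variables. -/
def T_SEQ : Prop :=
  ∀ (n k m : ℕ) (F : Fml n k m) (D e : ℕ) (Ex : Finset (Fin n × Bool) → Prop)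
    (Res : Finset (Fin n × Bool) → Finset (Fin n) → Prop), Rsv F D e Ex Res →
    ∀ τ, Sat F τ → ∀ l : List (Fin n), l.Nodup → l.length ≤ D →
    ((range l.length).filter fun i => ∃ v, l[i]? = some v ∧
      Ex (insert (v, !τ v) ((l.take i).toFinset.image fun u => (u, τ u)))).card ≤ e

open Classical in
/-- (IND) the first value at `L` is independent of an event which does not depend on it. -/
def T_IND : Prop :=
  ∀ (X : Type) [Fintype X] [DecidableEq X] (L : X) (b : Bool) (p : (X → Bool) → Prop),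
    (∀ ω ω' : X → Bool, (∀ x, x ≠ L → ω x = ω' x) → p ω → p ω') →
    2 * (univ.filter fun ω : X → Bool => ω L = b ∧ p ω).card = (univ.filter fun ω => p ω).card

open Classical in
/-- (DRU) the probability that the search succeeds. -/
def T_DRU : Prop :=
  ∀ (n k m : ℕ) (F : Fml n k m) (D e : ℕ) (Ex : Finset (Fin n × Bool) → Prop)
    (Res : Finset (Fin n × Bool) → Finset (Fin n) → Prop), Rsv F D e Ex Res → D ≤ n →
    ∀ T : Tree n, (univ.filter fun ω => Find F Ex ω T ∅).card * 2 ^ D ≤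
      nsol F * 2 ^ e * Fintype.card (Finset (Fin n × Bool) → Bool)

/-- (PAD) the leaves are made deep. -/
def T_PAD : Prop :=
  ∀ (n k m : ℕ) (F : Fml n k m) (Ex : Finset (Fin n × Bool) → Prop) (P : Prot n k m),
    (FindP F Ex P ∅ → FindD F Ex (pad P) ∅) ∧ ∀ q, Reads P q → Reads (pad P) q

/-- (WLK) success gives a walk with few second values which leads to a solution. -/
def T_WLK : Prop :=
  ∀ (n k m : ℕ) (F : Fml n k m) (D e : ℕ) (Ex : Finset (Fin n × Bool) → Prop)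
    (Res : Finset (Fin n × Bool) → Finset (Fin n) → Prop), Rsv F D e Ex Res → D ≤ n →
    ∀ P : Prot n k m, FindD F Ex P ∅ →
    ∃ β : List Bool, β.length = D ∧ β.count true ≤ e ∧ (walk F P β ∅).card = D ∧
      ∃ τ, Sat F τ ∧ Agr τ (walk F P β ∅)

open Classical in
/-- (KEY) the probability that a walk is right. -/
def T_KEY : Prop :=
  ∀ (n k m : ℕ) (g : Fin m → Fin k → Fin n) (P : Prot n k m) (q : ℕ) (β : List Bool),
    Reads P q →
    (univ.filter fun p : (Fin m → Fin k → Bool) × (Fin n → Bool) => Sat (mk g p.1) p.2 ∧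
      (walk (mk g p.1) P β ∅).card = β.length ∧ Agr p.2 (walk (mk g p.1) P β ∅)).card *
      (2 ^ β.length * (2 ^ k - 1) ^ q) ≤ 2 ^ n * (2 ^ k - 1) ^ m * 2 ^ (k * q)

open Classical in
/-- (PRS) the pairs, sorted by the formula without the signs. -/
def T_PRS : Prop :=
  ∀ (n k m : ℕ),
    ((univ.filter fun p : Fml n k m × (Fin n → Bool) => Dist p.1 ∧ Sat p.1 p.2).card =
      (univ.filter fun g : Fin m → Fin k → Fin n => ∀ c, Function.Injective (g c)).card *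
        (2 ^ n * (2 ^ k - 1) ^ m)) ∧
    ∀ p : Fml n k m × (Fin n → Bool) → Prop,
      (univ.filter fun a : Fml n k m × (Fin n → Bool) => Dist a.1 ∧ p a).card =
      ∑ g ∈ univ.filter fun g : Fin m → Fin k → Fin n => ∀ c, Function.Injective (g c),
        (univ.filter fun x : (Fin m → Fin k → Bool) × (Fin n → Bool) => p (mk g x.1, x.2)).card

open Classical in
/-- (EXC) all solutions of a formula have the same weight. -/
def T_EXC : Prop :=
  ∀ (n k m : ℕ) (N : ℝ) (B : Finset (List Bool))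
    (w : Fml n k m → List Bool → Finset (Fin n × Bool)), 0 ≤ N →
    ((univ.filter fun p : Fml n k m × (Fin n → Bool) => Dist p.1 ∧ Sat p.1 p.2 ∧
      (nsol p.1 : ℝ) ≤ N ∧ ∃ β ∈ B, (w p.1 β).card = β.length ∧
        ∃ τ, Sat p.1 τ ∧ Agr τ (w p.1 β)).card : ℝ) ≤
    N * ∑ β ∈ B, ((univ.filter fun p : Fml n k m × (Fin n → Bool) => Dist p.1 ∧ Sat p.1 p.2 ∧
      (w p.1 β).card = β.length ∧ Agr p.2 (w p.1 β)).card : ℝ)

open Classical in
/-- (MYO) the protocols. -/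
def T_MYO : Prop :=
  ∀ (n k m D e q : ℕ) (N : ℝ) (G : Set (Fml n k m))
    (Ex : Fml n k m → Finset (Fin n × Bool) → Prop), D ≤ n → 0 ≤ N →
    (∀ F ∈ G, (nsol F : ℝ) ≤ N ∧ ∃ Res, Rsv F D e (Ex F) Res) →
    ∀ P : (Fin m → Fin k → Fin n) → Prot n k m, (∀ g, Reads (P g) q) →
    ((univ.filter fun p : Fml n k m × (Fin n → Bool) => Dist p.1 ∧ Sat p.1 p.2 ∧ p.1 ∈ G ∧
      FindP p.1 (Ex p.1) (P (vars p.1)) ∅).card : ℝ) *
      (2 ^ D * (1 - (1 / 2 : ℝ) ^ k) ^ q) ≤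
    N * bl n e * (univ.filter fun p : Fml n k m × (Fin n → Bool) =>
      Dist p.1 ∧ Sat p.1 p.2).card

/-! ### Planted formulas -/

/-- (OSC) the number of the clauses which are satisfied by one or two assignments. -/
def T_OSC : Prop :=
  ∀ (n k : ℕ) (σ τ : Fin n → Bool),
    (Os n k σ).card = (2 ^ k - 1) * n.descFactorial k ∧
    (Os n k σ ∩ Os n k τ).card + 2 * n.descFactorial k =
      2 ^ k * n.descFactorial k + (n - dst σ τ).descFactorial k

open Classical in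
/-- (PL1) formulas without the property `X1`, with clauses in `Ω`. -/
def T_PL1 : Prop :=
  ∀ (n k m j s₀ : ℕ) (Ω : Finset (Fin k → Fin n × Bool)), 1 ≤ n → k ≤ n → s₀ ≤ n →
    Ω ⊆ Om n k → (Om n k).card ≤ 2 * Ω.card →
    ((univ.filter fun F : Fml n k m => (∀ c, F c ∈ Ω) ∧ ¬ X1 F j s₀).card : ℝ) ≤
      (∑ s ∈ Icc 1 s₀, (n.choose s : ℝ) * (2 * m).choose s *
        (k.choose j * ((s : ℝ) / n) ^ j) ^ s) * (Ω.card : ℝ) ^ m

open Classical in
/-- (PL2) formulas without the property `X2`, with clauses in `Ω`. -/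
def T_PL2 : Prop :=
  ∀ (n k m t d e : ℕ) (Ω : Finset (Fin k → Fin n × Bool)), 1 ≤ n → k ≤ n → e ≤ d → d ≤ n →
    Ω ⊆ Om n k → (Om n k).card ≤ 2 * Ω.card →
    ((univ.filter fun F : Fml n k m => (∀ c, F c ∈ Ω) ∧ ¬ X2 F t d e).card : ℝ) ≤
      6 ^ n * (2 * m).choose t * (((n : ℝ) - d + e) / (2 * n)) ^ (k * t) * (Ω.card : ℝ) ^ m

open Classical in
/-- (PLS) the pairs with many solutions. -/
def T_PLS : Prop :=
  ∀ (n k m : ℕ) (N : ℝ), 0 < N →
    ((univ.filter fun p : Fml n k m × (Fin n → Bool) => Dist p.1 ∧ Sat p.1 p.2 ∧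
      N < nsol p.1).card : ℝ) * N ≤
      2 ^ n * ∑ w ∈ range (n + 1), (n.choose w : ℝ) *
        ((2 ^ k - 2) * (n.descFactorial k : ℝ) + ((n - w).descFactorial k : ℝ)) ^ m

/-- (NS1) one term of the sum. -/
def T_NS1 : Prop :=
  ∀ (n k m w : ℕ) (ξ : ℝ), 1 ≤ k → k ≤ n → w ≤ n → 0 < ξ → ξ ≤ 1 →
    (((2 : ℝ) ^ k - 2) * (n.descFactorial k : ℝ) + ((n - w).descFactorial k : ℝ)) ^ m ≤
      (((2 : ℝ) ^ k - 1) * (n.descFactorial k : ℝ)) ^ m ∧
    (ξ * n ≤ w →
    (((2 : ℝ) ^ k - 2) * (n.descFactorial k : ℝ) + ((n - w).descFactorial k : ℝ)) ^ m ≤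
      (((2 : ℝ) ^ k - 1) * (n.descFactorial k : ℝ)) ^ m * (1 - (1 / 2 : ℝ) ^ k) ^ m *
        Real.exp (4 * (1 - ξ) ^ k * m / 2 ^ k))

/-- (NS2) the sum. -/
def T_NS2 : Prop :=
  ∀ η : ℝ, 0 < η → ∃ K : ℕ, 1 ≤ K ∧ ∀ K' k n m : ℕ, K ≤ K' → K ≤ k → k ≤ n → K ≤ n →
    (m : ℝ) ≤ (2 : ℝ) ^ ((1 + 1 / (K' : ℝ)) * k) * n →
    ∑ w ∈ range (n + 1), (n.choose w : ℝ) *
        (((2 : ℝ) ^ k - 2) * (n.descFactorial k : ℝ) + ((n - w).descFactorial k : ℝ)) ^ m ≤
      (2 : ℝ) ^ (η * n) * (2 ^ n * guess n k m) *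
        (((2 : ℝ) ^ k - 1) * (n.descFactorial k : ℝ)) ^ m

/-! ### Numbers and the end -/

/-- (FRE) the two bounds (NC1), (NC2) do not hold if `cost 2 ^ D` is small. -/
def T_FRE : Prop :=
  ∀ η : ℝ, 0 < η → η ≤ 1 → ∃ ε : ℝ, 0 < ε ∧ ε ≤ η ∧ ∃ K : ℕ, ∀ (n D d e t s R : ℕ) (ρ : ℝ),
    K ≤ n → 0 ≤ ρ → 1 ≤ s → 2 * e ≤ d → 2 * t ≤ e →
    (2 : ℝ) ^ (3 * d) * bl n R ≤ (2 : ℝ) ^ (ε * n) →
    2 * (bl n (d + 2 * t) : ℝ) * bl n t ≤ (2 : ℝ) ^ (ε * n) →
    cost n s ρ * (2 : ℝ) ^ D * (2 : ℝ) ^ (η * n) < (2 : ℝ) ^ n →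
    D + e + d ≤ n ∧ (e : ℝ) ≤ η * n ∧ ∀ S, S ≤ s →
    2 ^ n ≤ S * (2 ^ (D + e + ⌊ρ * n⌋₊ + 3 * d) * bl n R) → ∀ N, n ≤ D + e + N → N ≤ n →
      3 ^ N ≤ S * (2 ^ N * bl N (d + 2 * t) * bl N t) + 2 ^ N * bl N (e + d) → False

open Classical in
/-- (FNP) the bad pairs. -/
def T_FNP : Prop :=
  ∀ ε η : ℝ, 0 < ε → 0 < η → ∃ K : ℕ, 1 ≤ K ∧ ∀ K' k n : ℕ, K ≤ K' → K' ≤ k → K' * k ≤ n →
    ∃ j t d e s₀ : ℕ, 1 ≤ d ∧ 2 * e ≤ d ∧ 2 * t ≤ e ∧
      (2 : ℝ) ^ (3 * d) * bl n (2 * t * (n * (k / K') / d + 1)) ≤ (2 : ℝ) ^ (ε * n) ∧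
      2 * (bl n (d + 2 * t) : ℝ) * bl n t ≤ (2 : ℝ) ^ (ε * n) ∧
    ∀ m : ℕ, (m : ℝ) ≤ (2 : ℝ) ^ ((1 + 1 / (K' : ℝ)) * k) * n →
      (n : ℝ) * ((univ.filter fun p : Fml n k m × (Fin n → Bool) => Dist p.1 ∧ Sat p.1 p.2 ∧
        ¬ (Par p.1 j t d e s₀ ∧ (nsol p.1 : ℝ) ≤ (2 : ℝ) ^ (η * n) *
          (2 ^ n * guess n k m))).card : ℝ) ≤
      ((univ.filter fun p : Fml n k m × (Fin n → Bool) => Dist p.1 ∧ Sat p.1 p.2).card : ℝ)

/-- (FIN) everything together. -/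
def T_FIN : Prop :=
  T_RSV → T_SEQ → T_DRU → T_MYO → T_FRE → T_FNP → Main

end Pool.Agent.H47.PL
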