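import Pool.Agent.H47.PL.Targets2
import Pool.Agent.H47.PL.FNP

/-!
Random k-CNFs and search at the scale of SETH (MP_c62aed_lc): the bad pairs and the bad formulas.
-/

set_option autoImplicit false

namespace Pool.Agent.H47.PL

open Finset Pool.Agent.H97.RK

open Classical in
theorem markov_uni {n k m : ℕ} (M : ℕ) (hM : ∀ σ, (Os n k σ).card = M) (N : ℝ) :
    ((univ.filter fun F : Fml n k m => Dist F ∧ N < nsol F).card : ℝ) * N ≤
      2 ^ n * (M : ℝ) ^ m := by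
  have h1 : (univ.filter fun p : Fml n k m × (Fin n → Bool) => Dist p.1 ∧ Sat p.1 p.2).card =
      ∑ F ∈ univ.filter (fun F : Fml n k m => Dist F), nsol F := by
    rw [card_eq_sum_card_fiberwise (f := Prod.fst)
      (t := univ.filter fun F : Fml n k m => Dist F)
      (fun p hp => mem_filter.2 ⟨mem_univ _, (mfi.1 (mem_coe.1 hp)).1⟩)]
    refine sum_congr rfl fun F hF => ?_
    have hF' : Dist F := (mem_filter.1 hF).2
    unfold nsol
    refine card_bij' (fun p _ => p.2) (fun σ _ => (F, σ)) ?_ ?_ ?_ ?_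
    · intro p hp
      rw [mem_filter, mem_filter] at hp
      rw [mem_filter]
      obtain ⟨⟨-, h1, h2⟩, h4⟩ := hp
      rw [h4] at h2
      exact ⟨mem_univ _, h2⟩
    · intro σ hσ
      rw [mem_filter] at hσ
      rw [mem_filter, mem_filter]
      exact ⟨⟨mem_univ _, hF', hσ.2⟩, rfl⟩
    · intro p hp
      rw [mem_filter] at hp
      exact Prod.ext hp.2.symm rfl
    · intro σ _
      rfl
  have h2 := card_all (n := n) (k := k) (m := m) M hM
  have h3 : ∑ F ∈ univ.filter (fun F : Fml n k m => Dist F), nsol F = 2 ^ n * M ^ m := by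
    rw [← h1, ← h2]
  have h4 : ∑ F ∈ univ.filter (fun F : Fml n k m => Dist F), (nsol F : ℝ) =
      2 ^ n * (M : ℝ) ^ m := by
    exact_mod_cast h3
  rw [← h4]
  calc ((univ.filter fun F : Fml n k m => Dist F ∧ N < nsol F).card : ℝ) * N
      = ∑ _F ∈ univ.filter (fun F : Fml n k m => Dist F ∧ N < nsol F), N := by
        rw [sum_const, nsmul_eq_mul]
    _ ≤ ∑ F ∈ univ.filter (fun F : Fml n k m => Dist F ∧ N < nsol F), (nsol F : ℝ) :=
        sum_le_sum fun F hF => (mem_filter.1 hF).2.2.le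
    _ ≤ _ := sum_le_sum_of_subset_of_nonneg (fun F hF => by
        rw [mem_filter] at hF ⊢
        exact ⟨hF.1, hF.2.1⟩) (fun _ _ _ => Nat.cast_nonneg _)

open Classical in
theorem card_dist {n k m : ℕ} (A : Finset (Fml n k m)) (hA : ∀ F, F ∈ A ↔ Dist F) :
    A.card = (Om n k).card ^ m := by
  have h4 : A = Fintype.piFinset fun _ : Fin m => Om n k := by
    ext F
    rw [hA, Fintype.mem_piFinset, Dist_iff]
  rw [h4, Fintype.card_piFinset_const]

theorem pf_FN2 (hPRM : T_PRM) (hNX1 : T_NX1) (hNX2 : T_NX2) (hOSC : T_OSC) (hPL1 : T_PL1)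
    (hPL2 : T_PL2) (hPLS : T_PLS) (hNS2 : T_NS2) : T_FN2 := by
  classical
  intro ε η hε hη
  obtain ⟨δ, κ, hδ, hδ1, hκ, hκ1, hprm⟩ := hPRM (min ε 1) (lt_min hε one_pos) (min_le_right _ _)
  obtain ⟨σ, hσ, hσ1, K₁, hnx1⟩ := hNX1 κ hκ hκ1
  obtain ⟨K₂, hK₂, hprm⟩ := hprm σ hσ
  obtain ⟨K₃, hK₃, hnx2⟩ := hNX2 δ hδ hδ1
  obtain ⟨K₄, hK₄, hns2⟩ := hNS2 (η / 2) (by positivity)
  obtain ⟨K₅, hexp⟩ := exp_num (η / 2) (by positivity)
  obtain ⟨K, hKdef⟩ : ∃ K : ℕ, K = 2 * (K₁ + K₂ + K₃ + K₄ + K₅) := ⟨_, rfl⟩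
  have hK1 : 1 ≤ K := by omega
  refine ⟨K, hK1, fun K' k n hKK hKk hKn => ?_⟩
  have hK'1 : 1 ≤ K' := by omega
  have hkn : k ≤ n := (Nat.le_mul_of_pos_left k hK'1).trans hKn
  have hKn' : K' ≤ n := (Nat.le_mul_of_pos_right K' (by omega)).trans hKn
  have hn1 : 1 ≤ n := by omega
  have hn0 : (0 : ℝ) < n := by exact_mod_cast hn1
  obtain ⟨j, t, d, e, hj1, hj2, ht1, hts, hte, hje, hed, hd1, hde, hdn, hkt, hA, hB, hC⟩ :=
    hprm K' k n (by omega) hKk hKn
  have hmin : min ε 1 * n ≤ ε * n := mul_le_mul_of_nonneg_right (min_le_left _ _) hn0.le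
  refine ⟨j, t, d, e, ⌊σ * n⌋₊, hd1, hed, hte,
    hA.trans (Real.rpow_le_rpow_of_exponent_le (by norm_num) hmin),
    hB.trans (Real.rpow_le_rpow_of_exponent_le (by norm_num) hmin), fun m hm => ?_⟩
  have hs₀ : ⌊σ * n⌋₊ ≤ n := by
    refine Nat.floor_le_of_le ?_
    nlinarith
  have hm2 : ((2 * m : ℕ) : ℝ) ≤ (2 : ℝ) ^ ((1 + 1 / (K₃ : ℝ)) * k) * n := by
    have hK₃' : (0 : ℝ) < K₃ := by exact_mod_cast hK₃
    have hK'0 : (0 : ℝ) < K' := by exact_mod_cast hK'1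
    have hk0 : (0 : ℝ) ≤ k := Nat.cast_nonneg _
    have h1 : 1 + (1 + 1 / (K' : ℝ)) * k ≤ (1 + 1 / (K₃ : ℝ)) * k := by
      have h2 : 2 * (K₃ : ℝ) ≤ K' := by
        have : 2 * K₃ ≤ K' := by omega
        exact_mod_cast this
      have h3 : 2 * (K₃ : ℝ) ≤ k := by
        have : 2 * K₃ ≤ k := by omega
        exact_mod_cast this
      have h4 : 1 / (K' : ℝ) ≤ 1 / (2 * K₃) := one_div_le_one_div_of_le (by positivity) h2
      have h5 : 1 / (K' : ℝ) * k ≤ 1 / (2 * K₃) * k := mul_le_mul_of_nonneg_right h4 hk0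
      have h6 : 1 ≤ 1 / (2 * (K₃ : ℝ)) * k := by
        rw [div_mul_eq_mul_div, one_mul, le_div_iff₀ (by positivity)]
        linarith
      have h7 : 1 / (K₃ : ℝ) * k = 1 / (2 * K₃) * k + 1 / (2 * K₃) * k := by
        field_simp
        ring
      nlinarith
    have h2 : 2 * (2 : ℝ) ^ ((1 + 1 / (K' : ℝ)) * k) ≤ (2 : ℝ) ^ ((1 + 1 / (K₃ : ℝ)) * k) := by
      calc 2 * (2 : ℝ) ^ ((1 + 1 / (K' : ℝ)) * k) =
            (2 : ℝ) ^ (1 + (1 + 1 / (K' : ℝ)) * k) := by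
              rw [Real.rpow_add (by norm_num), Real.rpow_one]
        _ ≤ _ := Real.rpow_le_rpow_of_exponent_le (by norm_num) h1
    push_cast
    nlinarith
  have hm4 : 2 * m ≤ 4 ^ k * n := by
    have h1 : (2 : ℝ) ^ ((1 + 1 / (K₃ : ℝ)) * k) ≤ 4 ^ k := by
      have h2 : (4 : ℝ) ^ k = (2 : ℝ) ^ ((2 : ℝ) * k) := by
        rw [Real.rpow_mul (by norm_num), Real.rpow_natCast]
        norm_num
      rw [h2]
      refine Real.rpow_le_rpow_of_exponent_le (by norm_num) ?_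
      have h3 : 1 / (K₃ : ℝ) ≤ 1 := by
        rw [div_le_one (by exact_mod_cast hK₃)]
        exact_mod_cast hK₃
      have h4 : (0 : ℝ) ≤ k := Nat.cast_nonneg _
      nlinarith
    have h2 : ((2 * m : ℕ) : ℝ) ≤ 4 ^ k * n := hm2.trans (mul_le_mul_of_nonneg_right h1 hn0.le)
    exact_mod_cast h2
  have hx1 := hnx1 k n (2 * m) j (by omega) (by omega) hm4 hj1 hj2.le
  have hx2 := hnx2 K₃ k n (2 * m) t d e le_rfl (by omega) (by omega) hm2 hdn (by omega) hed hkt
  obtain ⟨M, hMdef⟩ : ∃ M : ℕ, M = (2 ^ k - 1) * n.descFactorial k := ⟨_, rfl⟩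
  have hM : ∀ τ, (Os n k τ).card = M := fun τ => by rw [hMdef]; exact (hOSC n k τ τ).1
  have hk2 : 2 ≤ 2 ^ k := by
    calc 2 = 2 ^ 1 := (pow_one 2).symm
      _ ≤ 2 ^ k := Nat.pow_le_pow_right (by norm_num) (by omega)
  have hMR : (M : ℝ) = ((2 : ℝ) ^ k - 1) * (n.descFactorial k : ℝ) := by
    rw [hMdef, Nat.cast_mul, Nat.cast_sub (by omega)]
    push_cast
    ring
  have hOmOs : ∀ τ, (Om n k).card ≤ 2 * (Os n k τ).card := by
    intro τ
    rw [hM, hMdef, card_Om, ← mul_assoc]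
    exact Nat.mul_le_mul_right _ (by omega)
  have hsub : ∀ τ, Os n k τ ⊆ Om n k := fun τ g hg => (mem_Os.1 hg).1
  obtain ⟨T, hT⟩ : ∃ T : ℝ, T = 2 ^ n * (M : ℝ) ^ m := ⟨_, rfl⟩
  have hT0 : 0 ≤ T := by
    rw [hT]
    positivity
  have hall : ((univ.filter fun p : Fml n k m × (Fin n → Bool) =>
      Dist p.1 ∧ Sat p.1 p.2).card : ℝ) = T := by
    rw [card_all M hM, hT]
    push_cast
    ring
  have hgen : ∀ Q : Fml n k m → Prop, (∀ τ, ((univ.filter fun F : Fml n k m =>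
      (∀ c, F c ∈ Os n k τ) ∧ Q F).card : ℝ) ≤ 1 / (4 * n) * (M : ℝ) ^ m) →
      ((univ.filter fun p : Fml n k m × (Fin n → Bool) =>
        Dist p.1 ∧ Sat p.1 p.2 ∧ Q p.1).card : ℝ) ≤ 1 / (4 * n) * T := by
    intro Q hQ
    rw [card_pairs Q]
    push_cast
    refine (sum_le_sum fun τ _ => hQ τ).trans (le_of_eq ?_)
    rw [sum_const, card_univ, Fintype.card_fun, Fintype.card_fin, Fintype.card_bool,
      nsmul_eq_mul, hT]
    push_cast
    ring
  have hb1 : ((univ.filter fun p : Fml n k m × (Fin n → Bool) =>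
      Dist p.1 ∧ Sat p.1 p.2 ∧ ¬ X1 p.1 j ⌊σ * n⌋₊).card : ℝ) ≤ 1 / (4 * n) * T :=
    le_trans (le_of_eq (congrArg Nat.cast (cfi fun p => Iff.rfl)))
      (hgen (fun F => ¬ X1 F j ⌊σ * n⌋₊) (fun τ => by
    have h1 := hPL1 n k m j ⌊σ * n⌋₊ (Os n k τ) hn1 hkn hs₀ (hsub τ) (hOmOs τ)
    rw [hM] at h1
    refine le_trans (le_of_eq (congrArg Nat.cast (cfi fun F => Iff.rfl)))
      (h1.trans (mul_le_mul_of_nonneg_right hx1 (by positivity)))))
  have hb2 : ((univ.filter fun p : Fml n k m × (Fin n → Bool) =>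
      Dist p.1 ∧ Sat p.1 p.2 ∧ ¬ X2 p.1 t d e).card : ℝ) ≤ 1 / (4 * n) * T :=
    le_trans (le_of_eq (congrArg Nat.cast (cfi fun p => Iff.rfl)))
      (hgen (fun F => ¬ X2 F t d e) (fun τ => by
    have h1 := hPL2 n k m t d e (Os n k τ) hn1 hkn (by omega) (by omega) (hsub τ) (hOmOs τ)
    rw [hM] at h1
    refine le_trans (le_of_eq (congrArg Nat.cast (cfi fun F => Iff.rfl)))
      (h1.trans (mul_le_mul_of_nonneg_right hx2 (by positivity)))))
  obtain ⟨N, hN⟩ : ∃ N : ℝ, N = (2 : ℝ) ^ (η * n) * (2 ^ n * guess n k m) := ⟨_, rfl⟩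
  rw [← hN]
  have hg : 0 < 2 ^ n * guess n k m := by
    unfold guess
    have h1 : (1 / 2 : ℝ) ^ k ≤ 1 := pow_le_one₀ (by norm_num) (by norm_num)
    have h2 : 0 ≤ (1 - (1 / 2 : ℝ) ^ k) ^ m := pow_nonneg (by linarith) m
    have h3 : (0 : ℝ) < (1 / 2 : ℝ) ^ n := by positivity
    positivity
  have hN0 : 0 < N := by
    rw [hN]
    positivity
  have hb3 : ((univ.filter fun p : Fml n k m × (Fin n → Bool) => Dist p.1 ∧ Sat p.1 p.2 ∧
      N < nsol p.1).card : ℝ) ≤ 1 / (4 * n) * T := by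
    have h1 := hPLS n k m N hN0
    have h2 := hns2 K' k n m (by omega) (by omega) hkn (by omega) hm
    rw [← hMR] at h2
    have h3 : (2 : ℝ) ^ (η * n) = (2 : ℝ) ^ (η / 2 * n) * (2 : ℝ) ^ (η / 2 * n) := by
      rw [← Real.rpow_add (by norm_num)]
      congr 1
      ring
    have h4 := hexp n (by omega)
    obtain ⟨u, hu⟩ : ∃ u : ℝ, u = (2 : ℝ) ^ (η / 2 * n) := ⟨_, rfl⟩
    rw [← hu] at h2 h3 h4
    have hu0 : 0 < u := by
      rw [hu]
      positivity
    have h5 : ((univ.filter fun p : Fml n k m × (Fin n → Bool) => Dist p.1 ∧ Sat p.1 p.2 ∧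
        N < nsol p.1).card : ℝ) * N ≤ (1 / u * T) * N := by
      refine h1.trans ?_
      calc _ ≤ 2 ^ n * (u * (2 ^ n * guess n k m) * (M : ℝ) ^ m) :=
            mul_le_mul_of_nonneg_left h2 (by positivity)
        _ = (1 / u * T) * N := by
            rw [hT, hN, h3]
            field_simp
    have h6 := le_of_mul_le_mul_right h5 hN0
    refine h6.trans (mul_le_mul_of_nonneg_right ?_ hT0)
    exact one_div_le_one_div_of_le (by positivity) h4
  have hcov : ((univ.filter fun p : Fml n k m × (Fin n → Bool) => Dist p.1 ∧ Sat p.1 p.2 ∧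
      ¬ (Par p.1 j t d e ⌊σ * n⌋₊ ∧ (nsol p.1 : ℝ) ≤ N)).card : ℝ) ≤
      3 * (1 / (4 * n) * T) := by
    have h1 : (univ.filter fun p : Fml n k m × (Fin n → Bool) => Dist p.1 ∧ Sat p.1 p.2 ∧
        ¬ (Par p.1 j t d e ⌊σ * n⌋₊ ∧ (nsol p.1 : ℝ) ≤ N)) ⊆
        ((univ.filter fun p : Fml n k m × (Fin n → Bool) =>
          Dist p.1 ∧ Sat p.1 p.2 ∧ ¬ X1 p.1 j ⌊σ * n⌋₊) ∪
        (univ.filter fun p : Fml n k m × (Fin n → Bool) =>
          Dist p.1 ∧ Sat p.1 p.2 ∧ ¬ X2 p.1 t d e)) ∪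
        (univ.filter fun p : Fml n k m × (Fin n → Bool) =>
          Dist p.1 ∧ Sat p.1 p.2 ∧ N < nsol p.1) := by
      intro p hp
      rw [mem_filter] at hp
      obtain ⟨-, h2, h3, h4⟩ := hp
      rw [mem_union, mem_union, mem_filter, mem_filter, mem_filter]
      by_cases h5 : X1 p.1 j ⌊σ * n⌋₊
      · by_cases h6 : X2 p.1 t d e
        · refine Or.inr ⟨mem_univ _, h2, h3, not_le.1 fun h7 => h4 ⟨?_, h7⟩⟩
          exact ⟨h5, h6, hj2, ht1, hts, hte, hje, by omega⟩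
        · exact Or.inl (Or.inr ⟨mem_univ _, h2, h3, h6⟩)
      · exact Or.inl (Or.inl ⟨mem_univ _, h2, h3, h5⟩)
    have h2 := (card_le_card h1).trans ((card_union_le _ _).trans
      (Nat.add_le_add_right (card_union_le _ _) _))
    have h3 : ((univ.filter fun p : Fml n k m × (Fin n → Bool) => Dist p.1 ∧ Sat p.1 p.2 ∧
        ¬ (Par p.1 j t d e ⌊σ * n⌋₊ ∧ (nsol p.1 : ℝ) ≤ N)).card : ℝ) ≤
        ((univ.filter fun p : Fml n k m × (Fin n → Bool) =>
          Dist p.1 ∧ Sat p.1 p.2 ∧ ¬ X1 p.1 j ⌊σ * n⌋₊).card : ℝ) +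
        ((univ.filter fun p : Fml n k m × (Fin n → Bool) =>
          Dist p.1 ∧ Sat p.1 p.2 ∧ ¬ X2 p.1 t d e).card : ℝ) +
        ((univ.filter fun p : Fml n k m × (Fin n → Bool) =>
          Dist p.1 ∧ Sat p.1 p.2 ∧ N < nsol p.1).card : ℝ) := by
      exact_mod_cast h2
    linarith
  refine ⟨?_, ?_⟩
  · rw [hall]
    have h1 := mul_le_mul_of_nonneg_left hcov hn0.le
    have h2 : (n : ℝ) * (3 * (1 / (4 * n) * T)) = 3 / 4 * T := by
      field_simp
    linarith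
  · obtain ⟨Q, hQ⟩ : ∃ Q : ℝ, Q = ((Om n k).card : ℝ) ^ m := ⟨_, rfl⟩
    have hQ0 : 0 ≤ Q := by
      rw [hQ]
      positivity
    have hall2 : ((univ.filter fun F : Fml n k m => Dist F).card : ℝ) = Q := by
      rw [card_dist _ (fun F => mfi), hQ]
      push_cast
      ring
    have hu1 : ((univ.filter fun F : Fml n k m => Dist F ∧ ¬ X1 F j ⌊σ * n⌋₊).card : ℝ) ≤
        1 / (4 * n) * Q := by
      have h1 := hPL1 n k m j ⌊σ * n⌋₊ (Om n k) hn1 hkn hs₀ (Subset.refl _) (by omega)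
      rw [← hQ] at h1
      refine le_trans (le_of_eq (congrArg Nat.cast (cfi fun F => ?_)))
        (h1.trans (mul_le_mul_of_nonneg_right hx1 hQ0))
      rw [Dist_iff]
    have hu2 : ((univ.filter fun F : Fml n k m => Dist F ∧ ¬ X2 F t d e).card : ℝ) ≤
        1 / (4 * n) * Q := by
      have h1 := hPL2 n k m t d e (Om n k) hn1 hkn (by omega) (by omega) (Subset.refl _)
        (by omega)
      rw [← hQ] at h1
      refine le_trans (le_of_eq (congrArg Nat.cast (cfi fun F => ?_)))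
        (h1.trans (mul_le_mul_of_nonneg_right hx2 hQ0))
      rw [Dist_iff]
    have hu3 : ((univ.filter fun F : Fml n k m => Dist F ∧ N < nsol F).card : ℝ) ≤
        1 / (4 * n) * Q := by
      have h1 := markov_uni (n := n) (k := k) (m := m) M hM N
      have h3 : (2 : ℝ) ^ (η * n) = (2 : ℝ) ^ (η / 2 * n) * (2 : ℝ) ^ (η / 2 * n) := by
        rw [← Real.rpow_add (by norm_num)]
        congr 1
        ring
      have h4 := hexp n (by omega)
      obtain ⟨u, hu⟩ : ∃ u : ℝ, u = (2 : ℝ) ^ (η / 2 * n) := ⟨_, rfl⟩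
      rw [← hu] at h3 h4
      have hu1 : 1 ≤ u := by
        rw [hu]
        exact Real.one_le_rpow (by norm_num) (by positivity)
      have h6 : (M : ℝ) ^ m = (1 - (1 / 2 : ℝ) ^ k) ^ m * Q := by
        rw [hQ, ← mul_pow, card_Om_real, hMR]
        congr 1
        have h7 : (1 / 2 : ℝ) ^ k * 2 ^ k = 1 := by
          rw [← mul_pow]
          norm_num
        linear_combination (n.descFactorial k : ℝ) * h7
      have h7 : (1 - (1 / 2 : ℝ) ^ k) ^ m ≤ guess n k m := by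
        unfold guess
        have : (0 : ℝ) ≤ (1 / 2 : ℝ) ^ n := by positivity
        linarith
      have h5 : ((univ.filter fun F : Fml n k m => Dist F ∧ N < nsol F).card : ℝ) * N ≤
          (1 / u * Q) * N := by
        refine h1.trans ?_
        rw [h6]
        have hu0 : 0 < u := by linarith
        calc 2 ^ n * ((1 - (1 / 2 : ℝ) ^ k) ^ m * Q) ≤ 2 ^ n * (guess n k m * Q) :=
              mul_le_mul_of_nonneg_left (mul_le_mul_of_nonneg_right h7 hQ0) (by positivity)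
          _ = 1 * (2 ^ n * guess n k m * Q) := by ring
          _ ≤ u * (2 ^ n * guess n k m * Q) :=
              mul_le_mul_of_nonneg_right hu1 (mul_nonneg hg.le hQ0)
          _ = (1 / u * Q) * N := by
              rw [hN, h3]
              field_simp
      have h8 := le_of_mul_le_mul_right h5 hN0
      refine h8.trans (mul_le_mul_of_nonneg_right ?_ hQ0)
      exact one_div_le_one_div_of_le (by positivity) h4
    have h1 : (univ.filter fun F : Fml n k m => Dist F ∧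
        ¬ (Par F j t d e ⌊σ * n⌋₊ ∧ (nsol F : ℝ) ≤ N)) ⊆
        ((univ.filter fun F : Fml n k m => Dist F ∧ ¬ X1 F j ⌊σ * n⌋₊) ∪
        (univ.filter fun F : Fml n k m => Dist F ∧ ¬ X2 F t d e)) ∪
        (univ.filter fun F : Fml n k m => Dist F ∧ N < nsol F) := by
      intro F hF
      rw [mem_filter] at hF
      obtain ⟨-, h2, h4⟩ := hF
      rw [mem_union, mem_union, mem_filter, mem_filter, mem_filter]
      by_cases h5 : X1 F j ⌊σ * n⌋₊
      · by_cases h6 : X2 F t d e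
        · refine Or.inr ⟨mem_univ _, h2, not_le.1 fun h7 => h4 ⟨?_, h7⟩⟩
          exact ⟨h5, h6, hj2, ht1, hts, hte, hje, by omega⟩
        · exact Or.inl (Or.inr ⟨mem_univ _, h2, h6⟩)
      · exact Or.inl (Or.inl ⟨mem_univ _, h2, h5⟩)
    have h2 := (card_le_card h1).trans ((card_union_le _ _).trans
      (Nat.add_le_add_right (card_union_le _ _) _))
    have h3 : ((univ.filter fun F : Fml n k m => Dist F ∧
        ¬ (Par F j t d e ⌊σ * n⌋₊ ∧ (nsol F : ℝ) ≤ N)).card : ℝ) ≤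
        ((univ.filter fun F : Fml n k m => Dist F ∧ ¬ X1 F j ⌊σ * n⌋₊).card : ℝ) +
        ((univ.filter fun F : Fml n k m => Dist F ∧ ¬ X2 F t d e).card : ℝ) +
        ((univ.filter fun F : Fml n k m => Dist F ∧ N < nsol F).card : ℝ) := by
      exact_mod_cast h2
    have h4 : ((univ.filter fun F : Fml n k m => Dist F ∧
        ¬ (Par F j t d e ⌊σ * n⌋₊ ∧ (nsol F : ℝ) ≤ N)).card : ℝ) ≤ 3 * (1 / (4 * n) * Q) := by
      linarith
    rw [hall2]
    have h5 := mul_le_mul_of_nonneg_left h4 hn0.le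
    have h6 : (n : ℝ) * (3 * (1 / (4 * n) * Q)) = 3 / 4 * Q := by
      field_simp
    linarith

end Pool.Agent.H47.PL
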