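import Pool.Agent.H47.PL.Targets

/-!
Planted random k-CNFs and backtracking search at the scale of SETH (MP_c62aed_lc): row IND.
-/

set_option autoImplicit false

namespace Pool.Agent.H47.PL

open Finset Pool.Agent.H97.RK

theorem pf_IND : T_IND := by
  classical
  intro X _ _ L b p hp
  have hu : ∀ (ω : X → Bool) (a : Bool), p (Function.update ω L a) ↔ p ω := by
    intro ω a
    constructor
    · exact fun h => hp _ _ (fun x hx => Function.update_of_ne hx _ _) h
    · exact fun h => hp _ _ (fun x hx => (Function.update_of_ne hx _ _).symm) h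
  have h1 : (univ.filter fun ω : X → Bool => ω L = b ∧ p ω).card =
      (univ.filter fun ω : X → Bool => ω L = !b ∧ p ω).card := by
    refine card_bij' (fun ω _ => Function.update ω L (!b)) (fun ω _ => Function.update ω L b)
      ?_ ?_ ?_ ?_
    · intro ω hω
      rw [mem_filter] at hω ⊢
      exact ⟨mem_univ _, Function.update_self _ _ _, (hu ω _).2 hω.2.2⟩
    · intro ω hω
      rw [mem_filter] at hω ⊢
      exact ⟨mem_univ _, Function.update_self _ _ _, (hu ω _).2 hω.2.2⟩
    · intro ω hω
      rw [mem_filter] at hω
      change Function.update (Function.update ω L (!b)) L b = ω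
      rw [Function.update_idem, ← hω.2.1, Function.update_eq_self]
    · intro ω hω
      rw [mem_filter] at hω
      change Function.update (Function.update ω L b) L (!b) = ω
      rw [Function.update_idem, ← hω.2.1, Function.update_eq_self]
  have h2 : (univ.filter fun ω : X → Bool => p ω) =
      (univ.filter fun ω : X → Bool => ω L = b ∧ p ω) ∪
      (univ.filter fun ω : X → Bool => ω L = !b ∧ p ω) := by
    ext ω
    rw [mem_union, mem_filter, mem_filter, mem_filter]
    constructor
    · intro h
      by_cases h3 : ω L = b
      · exact Or.inl ⟨mem_univ _, h3, h.2⟩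
      · exact Or.inr ⟨mem_univ _, by revert h3; cases ω L <;> cases b <;> simp, h.2⟩
    · rintro (h | h)
      · exact ⟨mem_univ _, h.2.2⟩
      · exact ⟨mem_univ _, h.2.2⟩
  have h3 : Disjoint (univ.filter fun ω : X → Bool => ω L = b ∧ p ω)
      (univ.filter fun ω : X → Bool => ω L = !b ∧ p ω) := by
    rw [disjoint_left]
    intro ω h4 h5
    rw [mem_filter] at h4 h5
    have := h4.2.1.symm.trans h5.2.1
    cases b <;> simp at this
  rw [h2, card_union_of_disjoint h3, ← h1]
  ring

end Pool.Agent.H47.PL
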