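import Pool.Agent.H47.PL.Targets

/-!
Planted random k-CNFs and backtracking search at the scale of SETH (MP_c62aed_lc): row SEQ.
-/

set_option autoImplicit false

namespace Pool.Agent.H47.PL

open Finset Pool.Agent.H97.RK

theorem pf_SEQ : T_SEQ := by
  classical
  intro n k m F D e Ex Res hR τ hτ l hl hlD
  obtain ⟨Ls, hLs⟩ : ∃ Ls : ℕ → Finset (Fin n × Bool), ∀ i, Ls i =
      (l.take i).toFinset.image fun u => (u, τ u) := ⟨_, fun _ => rfl⟩
  have hmem : ∀ i p, p ∈ Ls i ↔ p.1 ∈ l.take i ∧ τ p.1 = p.2 := by
    intro i p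
    rw [hLs, mem_image]
    constructor
    · rintro ⟨u, hu, rfl⟩
      exact ⟨List.mem_toFinset.1 hu, rfl⟩
    · rintro ⟨h1, h2⟩
      exact ⟨p.1, List.mem_toFinset.2 h1, Prod.ext rfl h2⟩
  have hcard : ∀ i, (Ls i).card ≤ i := by
    intro i
    rw [hLs]
    refine card_image_le.trans ((List.toFinset_card_le _).trans ?_)
    rw [List.length_take]
    exact min_le_left _ _
  have hsucc : ∀ i v, l[i]? = some v → Ls (i + 1) = insert (v, τ v) (Ls i) := by
    intro i v hv
    ext p
    rw [mem_insert, hmem, hmem, List.take_add_one, hv]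
    simp only [Option.toList_some, List.mem_append, List.mem_singleton]
    constructor
    · rintro ⟨h1 | h1, h2⟩
      · exact Or.inr ⟨h1, h2⟩
      · refine Or.inl (Prod.ext h1 ?_)
        rw [← h2, h1]
    · rintro (h1 | h1)
      · rw [h1]
        exact ⟨Or.inr rfl, rfl⟩
      · exact ⟨Or.inl h1.1, h1.2⟩
  have hnew : ∀ i v, l[i]? = some v → v ∉ dm (Ls i) := by
    intro i v hv h
    unfold dm at h
    rw [mem_image] at h
    obtain ⟨p, hp, rfl⟩ := h
    rw [hmem] at hp
    obtain ⟨i', hi', h3⟩ := List.mem_iff_getElem.1 hp.1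
    rw [List.length_take] at hi'
    rw [List.getElem_take] at h3
    have hil : i < l.length := by
      by_contra h4
      rw [List.getElem?_eq_none (by omega)] at hv
      exact absurd hv (by simp)
    rw [List.getElem?_eq_getElem hil] at hv
    have h5 : l[i'] = l[i] := by
      rw [h3]
      exact (Option.some.inj hv).symm
    have h6 := (List.Nodup.getElem_inj_iff hl).1 h5
    omega
  have hagr : ∀ i v, Agr τ (insert (v, τ v) (Ls i)) := by
    intro i v p hp
    rw [mem_insert, hmem] at hp
    rcases hp with hp | hp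
    · rw [hp]
    · exact hp.2
  have hmain : ∀ i, i ≤ l.length → ∃ W, Res (Ls i) W ∧ ∀ i', i' < i → ∀ v, l[i']? = some v →
      Ex (insert (v, !τ v) (Ls i')) → v ∈ W := by
    intro i
    induction i with
    | zero =>
      intro _
      refine ⟨∅, ?_, fun i' hi' => absurd hi' (Nat.not_lt_zero _)⟩
      have : Ls 0 = ∅ := by
        rw [hLs]
        simp
      rw [this]
      exact hR.init
    | succ i ih =>
      intro hi
      obtain ⟨W, hW, hW2⟩ := ih (by omega)
      have hi' : i < l.length := by omega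
      have hv : l[i]? = some l[i] := List.getElem?_eq_getElem hi'
      have h1 : (Ls i).card < D := by
        have := hcard i
        omega
      obtain ⟨W', hWW, hW'⟩ := hR.step (Ls i) W l[i] (τ l[i]) τ hW h1 (hnew i _ hv) hτ
        (hagr i _)
      rw [← hsucc i _ hv] at hW'
      refine ⟨W', hW', fun i' hi'' v hv' hex => ?_⟩
      rcases Nat.lt_succ_iff_lt_or_eq.1 hi'' with h2 | h2
      · exact hWW (hW2 i' h2 v hv' hex)
      · rw [h2] at hv' hex
        rw [hv] at hv'
        have h3 := Option.some.inj hv'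
        rw [← h3] at hex ⊢
        by_contra h4
        exact hR.free (Ls i) W l[i] (τ l[i]) τ hW h1 (hnew i _ hv) (fun h5 => h4 (hWW h5)) hτ
          (hagr i _) hex
  obtain ⟨W, hW, hW2⟩ := hmain l.length le_rfl
  refine le_trans ?_ (hR.card _ _ hW)
  have h1 : (W.image some).card = W.card := card_image_of_injective _ (Option.some_injective _)
  rw [← h1]
  refine card_le_card_of_injOn (fun i => l[i]?) ?_ ?_
  · intro i hi
    rw [mem_coe, mem_filter, mem_range] at hi
    obtain ⟨hi1, v, hv, hex⟩ := hi
    rw [← hLs] at hex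
    change l[i]? ∈ ((W.image some : Finset (Option (Fin n))) : Set (Option (Fin n)))
    rw [mem_coe, hv, mem_image]
    exact ⟨v, hW2 i hi1 v hv hex, rfl⟩
  · intro i hi i' hi' h
    rw [mem_coe, mem_filter, mem_range] at hi hi'
    have h2 : l[i]? = l[i']? := h
    rw [List.getElem?_eq_getElem hi.1, List.getElem?_eq_getElem hi'.1] at h2
    exact (List.Nodup.getElem_inj_iff hl).1 (Option.some.inj h2)

end Pool.Agent.H47.PL
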