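import Pool.Agent.H47.PL.Targets

/-!
Planted random k-CNFs and backtracking search at the scale of SETH (MP_c62aed_lc): row SOL.
-/

set_option autoImplicit false

namespace Pool.Agent.H47.PL

open Finset Pool.Agent.H97.RK

theorem St_zero {n k m : ℕ} {F : Fml n k m} {j t d e s₀ : ℕ} (hP : Par F j t d e s₀)
    (τ : Fin n → Bool) : St F j t τ ∅ ∅ ∅ := by
  refine ⟨?_, ?_, ?_, ?_, ?_, ?_⟩
  · intro c hc
    exact absurd hc (notMem_empty c)
  · intro c hc
    exact absurd hc (notMem_empty c)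
  · intro c hc
    exact absurd hc (notMem_empty c)
  · intro c _ _
    have := hP.jk
    simp [Pool.Agent.H97.RK.out, this]
  · simp
  · have := hP.t1
    simp
    omega

/-- a state does not depend on the values outside `A ∪ W` -/
theorem St_congr {n k m : ℕ} {F : Fml n k m} {j t : ℕ} {τ τ' : Fin n → Bool}
    {A W : Finset (Fin n)} {J : Finset (Fin m)} (h : St F j t τ A W J)
    (h1 : ∀ u ∈ A, τ' u = τ u) (h2 : ∀ c ∈ J, Sa F τ' (A ∪ W) c) : St F j t τ' A W J := by
  refine ⟨h2, h.mem, ?_, ?_, h.crd, h.lt⟩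
  · intro c hc i hi
    rw [h1 _ (mem_sdiff.1 hi).1]
    exact h.alv c hc i hi
  · intro c hc hal
    refine h.out c hc fun i hi => ?_
    rw [← h1 _ hi]
    exact hal i hi

theorem pf_SOL (hCLO : T_CLO) (hASK : T_ASK) : T_SOL := by
  classical
  intro n k m F j t d e s₀ hP
  refine ⟨fun τ => St_zero hP τ, ?_, ?_, ?_⟩
  · intro τ τ' A W J h hs h1
    refine St_congr h h1 fun c hc => ?_
    obtain ⟨i, hi⟩ := hs c
    exact ⟨i, h.mem c hc i, hi⟩
  · intro τ A W J v h hs hA
    have g1 : ∀ c ∈ J, ∀ i, (F c i).1 ∈ insert v A ∪ W := by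
      intro c hc i
      have := h.mem c hc i
      rw [mem_union] at this ⊢
      exact this.imp (fun h => mem_insert_of_mem h) id
    have g2 : ∀ c ∈ J, Al F τ (insert v A \ W) c := by
      intro c hc i hi
      rw [mem_sdiff, mem_insert] at hi
      have hm := h.mem c hc i
      rw [mem_union] at hm
      refine h.alv c hc i ?_
      rw [mem_sdiff]
      exact ⟨hm.resolve_right hi.2, hi.2⟩
    have g3 : (insert v A).card + e + d ≤ n := by
      have := card_insert_le v A
      omega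
    obtain ⟨W', J', h1, h2, h3, h4, h5, h6, h7, h8⟩ := hCLO n k m F j t d e hP.x2 hP.je τ
      (insert v A) W J g1 g2 h.crd h.lt g3
    refine ⟨W', J', h1, ⟨?_, h3, h4, h8, h5, h6⟩⟩
    intro c hc
    obtain ⟨i, hi⟩ := hs c
    exact ⟨i, h3 c hc i, hi⟩
  · intro τ A W J v h hv hA
    rw [mem_union, not_or] at hv
    obtain ⟨y, hy⟩ : ∃ y : Fin n → Bool, y = Function.update τ v (!τ v) := ⟨_, rfl⟩
    have h1 : ∀ u, u ≠ v → y u = τ u := by
      intro u hu
      rw [hy, Function.update_of_ne hu]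
    have h2 : St F j t y A W J := by
      refine St_congr h (fun u hu => h1 u fun h3 => hv.1 (h3 ▸ hu)) fun c hc => ?_
      obtain ⟨i, hi, hi2⟩ := h.sat c hc
      refine ⟨i, hi, ?_⟩
      rw [h1, hi2]
      intro h3
      rw [h3, mem_union] at hi
      exact hi.elim hv.1 hv.2
    obtain ⟨y', W', J', h3, h4, -⟩ := hASK n k m F j t d e s₀ hP y A W J v h2 hv.1 hA
    refine ⟨y', W', J', h3, ?_, fun u hu => ?_⟩
    · rw [h4 v (mem_insert_self _ _), hy, Function.update_self]
    · rw [h4 u (mem_insert_of_mem hu), h1 u fun h5 => hv.1 (h5 ▸ hu)]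

end Pool.Agent.H47.PL
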