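import Pool.Agent.H47.PL.SOL

/-!
Planted random k-CNFs and backtracking search at the scale of SETH (MP_c62aed_lc): row TAR.
-/

set_option autoImplicit false

namespace Pool.Agent.H47.PL

open Finset Pool.Agent.H97.RK

private theorem dst_tri {n : ℕ} (a b c : Fin n → Bool) : dst a c ≤ dst a b + dst b c := by
  unfold dst
  refine le_trans (card_le_card ?_) (card_union_le _ _)
  intro u hu
  rw [mem_union, mem_filter, mem_filter]
  rw [mem_filter] at hu
  by_contra h
  push Not at h
  exact hu.2 ((h.1 (mem_univ _)).trans (h.2 (mem_univ _)))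

theorem pf_TAR (hASK : T_ASK) : T_TAR := by
  classical
  intro n k m F j t d e s₀ hP y A W J hS x B hx hAB
  have hSx : St F j t x A W J := by
    refine St_congr hS (fun u hu => hx u (mem_union_left _ hu)) fun c hc => ?_
    obtain ⟨i, hi, hi2⟩ := hS.sat c hc
    exact ⟨i, hi, by rw [hx _ hi, hi2]⟩
  suffices h : ∀ B : Finset (Fin n), (A ∪ B).card + e + d ≤ n →
      ∃ (y' : Fin n → Bool) (W' : Finset (Fin n)) (J' : Finset (Fin m)),
        St F j t y' (A ∪ B) W' J' ∧ (∀ u ∈ A, y' u = x u) ∧ dst y' x ≤ J'.card by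
    obtain ⟨y', W', J', h1, h2, h3⟩ := h B hAB
    exact ⟨y', W', J', h1, fun u hu => (h2 u hu).trans (hx u (mem_union_left _ hu)),
      h3.trans h1.lt.le⟩
  intro B
  induction B using Finset.induction_on with
  | empty =>
    intro _
    rw [union_empty]
    refine ⟨x, W, J, hSx, fun _ _ => rfl, ?_⟩
    simp [dst]
  | insert v B hv ih =>
    intro hA
    by_cases hvA : v ∈ A ∪ B
    · have h1 : A ∪ insert v B = A ∪ B := by
        rw [union_insert, insert_eq_of_mem hvA]
      rw [h1] at hA ⊢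
      exact ih hA
    · have h1 : A ∪ insert v B = insert v (A ∪ B) := union_insert _ _ _
      rw [h1] at hA ⊢
      rw [card_insert_of_notMem hvA] at hA
      obtain ⟨y₁, W₁, J₁, h2, h3, h4⟩ := ih (by omega)
      obtain ⟨y₂, W₂, J₂, h5, h6, h7⟩ := hASK n k m F j t d e s₀ hP y₁ (A ∪ B) W₁ J₁ v h2 hvA hA
      refine ⟨y₂, W₂, J₂, h5, fun u hu => ?_, ?_⟩
      · rw [h6 u (mem_insert_of_mem (mem_union_left _ hu)), h3 u hu]
      · have := dst_tri y₂ y₁ x
        omega

end Pool.Agent.H47.PL
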