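import Pool.Agent.H47.PL.FI2
import Pool.Agent.H47.PL.FN2
import Pool.Agent.H47.PL.IND
import Pool.Agent.H47.PL.SEQ
import Pool.Agent.H47.PL.SOL
import Pool.Agent.H47.PL.TAR
import Pool.Agent.H45.PL.CR2
import Pool.Agent.H45.PL.LRN
import Pool.Agent.H14.PL.DR2
import Pool.Agent.H14.PL.MYU
import Pool.Agent.H5.PL.EXC
import Pool.Agent.H63.PL.FRE
import Pool.Agent.H63.PL.KEY
import Pool.Agent.H63.PL.LST
import Pool.Agent.H63.PL.WLK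
import Pool.Agent.H67.PLN.LPO
import Pool.Agent.H67.PLN.PL2
import Pool.Agent.H20.PL.LNB
import Pool.Agent.H19.PL.LOC
import Pool.Agent.H19.PL.NS1
import Pool.Agent.H19.PL.RND
import Pool.Agent.H19.PL.RSV
import Pool.Agent.H4.PLN.MDD
import Pool.Agent.H4.PLN.WM2
import Pool.Agent.H4.PLN.WVC
import Pool.Agent.H74.PL.MYO
import Pool.Agent.H42.PL.NC1
import Pool.Agent.H42.PL.STD
import Pool.Agent.H79.PL.NC2
import Pool.Agent.H35.PL.NS2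
import Pool.Agent.H35.PL.WPL
import Pool.Agent.H32.PLN.OSC
import Pool.Agent.H32.PLN.PAD
import Pool.Agent.H32.PLN.PL1
import Pool.Agent.H13.PL.PLS
import Pool.Agent.H13.PL.WTL
import Pool.Agent.H40.PL.PRS
import Pool.Agent.H7.PL.WEX
import Pool.Agent.H7.PL.WUN
import Pool.Agent.H72.PL.WGN
import Pool.Agent.H51.PL.WM1
import Pool.Agent.H97.RK.All

/-!
Random k-CNFs and search at the scale of SETH (MP_c62aed_lc): the theorem.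
-/

set_option autoImplicit false

namespace Pool.Agent.H47.PL

open Pool.Agent.H97.RK

theorem rsv : T_RSV :=
  H19.PL.pf_RSV (pf_SOL H42.RKS.pf_CLO ask)
    (H42.PL.pf_NC1 (H19.PL.pf_RND (H42.PL.pf_STD ask) (H33.RKS.pf_FGT H42.RKS.pf_FIX H42.RKS.pf_CLO))
      H37.RKS.pf_CN1)
    (H79.PL.pf_NC2 (pf_TAR ask) (H4.PLN.pf_MDD H42.RKS.pf_FIX H27.RKS.pf_TRS)
      (H45.PL.pf_CR2 H70.RKS.pf_CN2))

theorem wvc : T_WVC := H4.PLN.pf_WVC H13.PL.pf_WTL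

theorem wex : T_WEX := H7.PL.pf_WEX wvc H4.PLN.pf_WM2

theorem main2 : Main2 :=
  pf_FI2 rsv pf_SEQ (H14.PL.pf_DR2 pf_IND)
    (H74.PL.pf_MYO H32.PLN.pf_PAD H63.PL.pf_WLK H63.PL.pf_KEY H40.PL.pf_PRS H5.PL.pf_EXC)
    (H14.PL.pf_MYU H32.PLN.pf_PAD H63.PL.pf_WLK H63.PL.pf_KEY H40.PL.pf_PRS)
    (H63.PL.pf_FRE H45.RKS.pf_BLB)
    (H19.PL.pf_LOC H67.PLN.pf_LPO H67.PLN.pf_LAV (H20.PL.pf_LNB H45.RKS.pf_BLB) H63.PL.pf_LST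
      H45.PL.pf_LRN)
    (H7.PL.pf_WUN wvc H51.PL.pf_WM1 H72.PL.pf_WGN wex)
    (H35.PL.pf_WPL wvc H51.PL.pf_WM1 H72.PL.pf_WGN wex H32.PLN.pf_OSC H45.RKS.pf_BLB)
    (pf_FN2 (H20.RKS.pf_PRM H45.RKS.pf_BLB) H78.RKS.pf_NX1 H27.RKS.pf_NX2 H32.PLN.pf_OSC
      H32.PLN.pf_PL1 H67.PLN.pf_PL2 (H13.PL.pf_PLS H32.PLN.pf_OSC)
      (H35.PL.pf_NS2 H19.PL.pf_NS1 H45.RKS.pf_BLB))

end Pool.Agent.H47.PL
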