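import Pool.Agent.H47.PL.Targets

/-!
Planted random k-CNFs and backtracking search at the scale of SETH (MP_c62aed_lc): everything
together.
-/

set_option autoImplicit false

namespace Pool.Agent.H47.PL

open Finset Pool.Agent.H97.RK

theorem one_le_cost (n s : ℕ) (ρ : ℝ) (hρ : 0 ≤ ρ) (hs : 1 ≤ s) : 1 ≤ cost n s ρ := by
  have hs' : (1 : ℝ) ≤ s := by exact_mod_cast hs
  unfold cost
  refine le_min ?_ ?_
  · have h1 : (1 : ℝ) ≤ (2 : ℝ) ^ (ρ * n) :=
      Real.one_le_rpow (by norm_num) (mul_nonneg hρ (Nat.cast_nonneg _))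
    nlinarith
  · exact Real.one_le_rpow hs' (by norm_num)

theorem guess_pos (n k m : ℕ) : 0 < guess n k m := by
  unfold guess
  have h1 : (1 / 2 : ℝ) ^ k ≤ 1 := pow_le_one₀ (by norm_num) (by norm_num)
  have h2 : 0 ≤ (1 - (1 / 2 : ℝ) ^ k) ^ m := pow_nonneg (by linarith) m
  have h3 : (0 : ℝ) < (1 / 2 : ℝ) ^ n := by positivity
  linarith

theorem le_guess (n k m : ℕ) : (1 : ℝ) ≤ 2 ^ n * guess n k m := by
  unfold guess
  have h1 : (1 / 2 : ℝ) ^ k ≤ 1 := pow_le_one₀ (by norm_num) (by norm_num)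
  have h2 : 0 ≤ (1 - (1 / 2 : ℝ) ^ k) ^ m := pow_nonneg (by linarith) m
  have h3 : (2 : ℝ) ^ n * (1 / 2 : ℝ) ^ n = 1 := by
    rw [← mul_pow]
    norm_num
  have h4 : (0 : ℝ) ≤ 2 ^ n * (1 - (1 / 2 : ℝ) ^ k) ^ m := mul_nonneg (by positivity) h2
  rw [mul_add, h3]
  linarith

theorem fin_num (n k m s : ℕ) (ρ ε η X Y : ℝ) (hρ : 0 ≤ ρ) (hs : 1 ≤ s) (hn : 1 ≤ η * n)
    (hη : 4 * η ≤ ε) (hY : 0 ≤ Y) (hXY : X ≤ Y)
    (h : ∀ D : ℕ, cost n s ρ * (2 : ℝ) ^ D * (2 : ℝ) ^ (η * n) < (2 : ℝ) ^ n →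
      X * 2 ^ D ≤ (2 : ℝ) ^ (η * n) * (2 ^ n * guess n k m) * (2 : ℝ) ^ (η * n) * Y) :
    X ≤ (2 : ℝ) ^ (ε * n) * cost n s ρ * guess n k m * Y := by
  have hn0 : (0 : ℝ) ≤ n := Nat.cast_nonneg _
  have hc := one_le_cost n s ρ hρ hs
  have hg := guess_pos n k m
  obtain ⟨u, hu⟩ : ∃ u : ℝ, u = (2 : ℝ) ^ (η * n) := ⟨_, rfl⟩
  have hu2 : 2 ≤ u := by
    rw [hu]
    calc (2 : ℝ) = (2 : ℝ) ^ (1 : ℝ) := (Real.rpow_one 2).symm
      _ ≤ _ := Real.rpow_le_rpow_of_exponent_le (by norm_num) hn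
  have hu4 : u ^ 4 ≤ (2 : ℝ) ^ (ε * n) := by
    have h1 : u ^ 4 = (2 : ℝ) ^ (4 * η * n) := by
      rw [hu, ← Real.rpow_natCast, ← Real.rpow_mul (by norm_num)]
      congr 1
      push_cast
      ring
    rw [h1]
    exact Real.rpow_le_rpow_of_exponent_le (by norm_num) (mul_le_mul_of_nonneg_right hη hn0)
  rw [← hu] at h
  by_cases h0 : cost n s ρ * u < (2 : ℝ) ^ n
  · obtain ⟨D, hD, hD1⟩ : ∃ D : ℕ, cost n s ρ * (2 : ℝ) ^ D * u < (2 : ℝ) ^ n ∧
        (2 : ℝ) ^ n ≤ cost n s ρ * (2 : ℝ) ^ (D + 1) * u := by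
      classical
      have hex : ∃ D : ℕ, (2 : ℝ) ^ n ≤ cost n s ρ * (2 : ℝ) ^ D * u := by
        refine ⟨n, ?_⟩
        have h1 : (0 : ℝ) < 2 ^ n := by positivity
        have h2 : (2 : ℝ) ^ n ≤ cost n s ρ * (2 : ℝ) ^ n := by nlinarith
        nlinarith
      have h1 := Nat.find_spec hex
      rcases hfind : Nat.find hex with _ | D
      · rw [hfind, pow_zero, mul_one] at h1
        exact absurd h0 (not_lt.2 h1)
      · rw [hfind] at h1
        refine ⟨D, not_le.1 (Nat.find_min hex (by omega)), h1⟩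
    have h1 := h D hD
    have h2 : (0 : ℝ) < 2 ^ D := by positivity
    have h3 : X * 2 ^ D ≤ (u ^ 3 * 2 * cost n s ρ * guess n k m * Y) * 2 ^ D := by
      calc X * 2 ^ D ≤ u * (2 ^ n * guess n k m) * u * Y := h1
        _ = 2 ^ n * (u ^ 2 * guess n k m * Y) := by ring
        _ ≤ (cost n s ρ * (2 : ℝ) ^ (D + 1) * u) * (u ^ 2 * guess n k m * Y) :=
            mul_le_mul_of_nonneg_right hD1 (by positivity)
        _ = _ := by ring
    have h4 : X ≤ u ^ 3 * 2 * cost n s ρ * guess n k m * Y := le_of_mul_le_mul_right h3 h2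
    refine h4.trans ?_
    refine mul_le_mul_of_nonneg_right (mul_le_mul_of_nonneg_right
      (mul_le_mul_of_nonneg_right ?_ (by positivity)) hg.le) hY
    calc u ^ 3 * 2 ≤ u ^ 3 * u := mul_le_mul_of_nonneg_left hu2 (by positivity)
      _ = u ^ 4 := by ring
      _ ≤ _ := hu4
  · rw [not_lt] at h0
    have h1 : 1 ≤ (2 : ℝ) ^ (ε * n) * cost n s ρ * guess n k m := by
      have h2 : u ≤ (2 : ℝ) ^ (ε * n) := by
        refine le_trans ?_ hu4
        calc u = u ^ 1 := (pow_one u).symm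
          _ ≤ u ^ 4 := pow_le_pow_right₀ (by linarith) (by norm_num)
      have h3 : (2 : ℝ) ^ n ≤ (2 : ℝ) ^ (ε * n) * cost n s ρ := by
        refine h0.trans ?_
        rw [mul_comm]
        exact mul_le_mul_of_nonneg_right h2 (by linarith)
      exact (le_guess n k m).trans (mul_le_mul_of_nonneg_right h3 hg.le)
    calc X ≤ Y := hXY
      _ = 1 * Y := (one_mul Y).symm
      _ ≤ _ := mul_le_mul_of_nonneg_right h1 hY

theorem natcard_filter {α : Type} [Fintype α] (P : α → Prop) {_ : DecidablePred P} :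
    Nat.card {a // P a} = (univ.filter P).card := by
  classical
  rw [Nat.card_eq_fintype_card, Fintype.card_subtype]

theorem pf_FIN : T_FIN := by
  classical
  intro hRSV hSEQ hDRU hMYO hFRE hFNP ε hε
  obtain ⟨η, hη, hη1, hηε⟩ : ∃ η : ℝ, 0 < η ∧ η ≤ 1 ∧ 4 * η ≤ ε := by
    refine ⟨min ε 1 / 4, by positivity, ?_, ?_⟩
    · have := min_le_right ε 1
      linarith
    · have := min_le_left ε 1
      linarith
  obtain ⟨ε₁, hε₁, hε₁η, K₁, hfre⟩ := hFRE η hη hη1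
  obtain ⟨K₂, hK₂, hfnp⟩ := hFNP ε₁ η hε₁ hη
  obtain ⟨K₃, hK₃⟩ := exists_nat_ge (1 / η)
  obtain ⟨K, hKdef⟩ : ∃ K : ℕ, K = K₁ + K₂ + K₃ := ⟨_, rfl⟩
  have hK1 : 1 ≤ K := by omega
  refine ⟨K, hK1, fun k n m hKk hKn hm => ?_⟩
  have hKn' : K ≤ n := (Nat.le_mul_of_pos_right K (by omega)).trans hKn
  have hn1 : 1 ≤ n := by omega
  have hn0 : (0 : ℝ) < n := by exact_mod_cast hn1
  have hηn : 1 ≤ η * n := by
    have h1 : (K₃ : ℝ) ≤ n := by
      have : K₃ ≤ n := by omega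
      exact_mod_cast this
    have h2 : 1 / η ≤ n := hK₃.trans h1
    rw [div_le_iff₀ hη] at h2
    linarith
  obtain ⟨j, t, d, e, s₀, hd1, hed, hte, hA, hB, hbad⟩ := hfnp K k n (by omega) hKk hKn
  have hbad := hbad m hm
  obtain ⟨N, hN⟩ : ∃ N : ℝ, N = (2 : ℝ) ^ (η * n) * (2 ^ n * guess n k m) := ⟨_, rfl⟩
  rw [← hN] at hbad
  have hN0 : 0 ≤ N := by
    rw [hN]
    have := guess_pos n k m
    positivity
  have hblt : 1 ≤ (bl n t : ℝ) := by
    have : 1 ≤ bl n t := by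
      unfold bl
      calc 1 = n.choose 0 := (Nat.choose_zero_right n).symm
        _ ≤ _ := single_le_sum (f := fun i => n.choose i) (fun i _ => Nat.zero_le _)
            (mem_range.2 (Nat.succ_pos _))
    exact_mod_cast this
  have hble : (bl n e : ℝ) ≤ (2 : ℝ) ^ (η * n) := by
    have h1 : bl n e ≤ bl n (d + 2 * t) := by
      unfold bl
      exact sum_le_sum_of_subset (range_subset_range.2 (by omega))
    have h2 : (bl n e : ℝ) ≤ bl n (d + 2 * t) := by exact_mod_cast h1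
    have h3 : (0 : ℝ) ≤ bl n (d + 2 * t) := Nat.cast_nonneg _
    have h4 : (bl n (d + 2 * t) : ℝ) ≤ 2 * (bl n (d + 2 * t) : ℝ) * bl n t := by nlinarith
    refine (h2.trans h4).trans (hB.trans ?_)
    exact Real.rpow_le_rpow_of_exponent_le (by norm_num)
      (mul_le_mul_of_nonneg_right hε₁η hn0.le)
  obtain ⟨G, hG⟩ : ∃ G : Set (Fml n k m), ∀ F, F ∈ G ↔
      (Par F j t d e s₀ ∧ (nsol F : ℝ) ≤ N) :=
    ⟨{F | Par F j t d e s₀ ∧ (nsol F : ℝ) ≤ N}, fun _ => Iff.rfl⟩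
  have hrsv : ∀ F ∈ G, ∀ (ρ : ℝ) (s D : ℕ), 0 ≤ ρ → 1 ≤ s →
      cost n s ρ * (2 : ℝ) ^ D * (2 : ℝ) ^ (η * n) < (2 : ℝ) ^ n →
      D ≤ n ∧ (e : ℝ) ≤ η * n ∧ ∃ Res, Rsv F D e (Excl F K ρ s) Res := by
    intro F hF ρ s D hρ hs hD
    obtain ⟨h1, h2, h3⟩ := hfre n D d e t s (2 * t * (n * (k / K) / d + 1)) ρ (by omega) hρ hs
      hed hte hA hB hD
    exact ⟨by omega, h2, hRSV n k m F j t d e s₀ ((hG F).1 hF).1 hd1 K s D ρ hK1 hρ h1 h3⟩
  refine ⟨G, ?_, ?_, ?_⟩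
  · rw [natcard_filter, natcard_filter]
    refine le_trans (le_of_eq ?_) hbad
    congr 2
    refine congrArg card (filter_congr fun p _ => ?_)
    rw [hG]
  · intro F hF
    constructor
    · intro ρ s hρ hs τ hτ l hl hc
      have h1 : cost n s ρ * (2 : ℝ) ^ l.length * (2 : ℝ) ^ (η * n) < (2 : ℝ) ^ n := by
        refine (mul_le_mul_of_nonneg_right hc (by positivity)).trans_lt ?_
        rw [← Real.rpow_add (by norm_num), ← Real.rpow_natCast]
        refine Real.rpow_lt_rpow_of_exponent_lt (by norm_num) ?_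
        nlinarith
      obtain ⟨-, h2, Res, h3⟩ := hrsv F hF ρ s l.length hρ hs h1
      have h4 := hSEQ n k m F l.length e _ Res h3 τ hτ l hl le_rfl
      have h5 : ((((range l.length).filter fun i => ∃ v, l[i]? = some v ∧
          Excl F K ρ s (insert (v, !τ v)
            ((l.take i).toFinset.image fun u => (u, τ u)))).card : ℕ) : ℝ) ≤ (e : ℝ) := by
        exact_mod_cast h4
      refine h5.trans (h2.trans ?_)
      nlinarith
    · intro ρ s hρ hs T
      rw [natcard_filter]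
      refine fin_num n k m s ρ ε η _ _ hρ hs hηn hηε (Nat.cast_nonneg _) ?_ ?_
      · rw [Nat.card_eq_fintype_card]
        exact_mod_cast card_le_univ _
      · intro D hD
        obtain ⟨h1, h2, Res, h3⟩ := hrsv F hF ρ s D hρ hs hD
        have h4 := hDRU n k m F D e _ Res h3 h1 T
        have h5 : ((univ.filter fun ω => Find F (Excl F K ρ s) ω T ∅).card : ℝ) * 2 ^ D ≤
            nsol F * 2 ^ e * Fintype.card (Finset (Fin n × Bool) → Bool) := by
          exact_mod_cast h4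
        refine h5.trans ?_
        rw [Nat.card_eq_fintype_card]
        refine mul_le_mul_of_nonneg_right ?_ (Nat.cast_nonneg _)
        rw [← hN]
        refine mul_le_mul ((hG F).1 hF).2 ?_ (by positivity) hN0
        rw [← Real.rpow_natCast]
        exact Real.rpow_le_rpow_of_exponent_le (by norm_num) h2
  · intro ρ s q hρ hs P hP
    rw [natcard_filter, natcard_filter]
    have hq0 : (0 : ℝ) ≤ (1 - (1 / 2 : ℝ) ^ k) ^ q := by
      refine pow_nonneg ?_ q
      have : (1 / 2 : ℝ) ^ k ≤ 1 := pow_le_one₀ (by norm_num) (by norm_num)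
      linarith
    have hq1 : (1 - (1 / 2 : ℝ) ^ k) ^ q ≤ 1 := by
      have h1 : (1 / 2 : ℝ) ^ k ≤ 1 := pow_le_one₀ (by norm_num) (by norm_num)
      have h2 : (0 : ℝ) ≤ (1 / 2 : ℝ) ^ k := by positivity
      exact pow_le_one₀ (by linarith) (by linarith)
    refine fin_num n k m s ρ ε η _ _ hρ hs hηn hηε (Nat.cast_nonneg _) ?_ ?_
    · refine (mul_le_of_le_one_right (Nat.cast_nonneg _) hq1).trans ?_
      refine Nat.cast_le.2 (card_le_card fun p hp => ?_)
      rw [mem_filter] at hp ⊢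
      exact ⟨mem_univ _, hp.2.1, hp.2.2.1⟩
    · intro D hD
      by_cases hGe : ∃ F, F ∈ G
      · obtain ⟨F₀, hF₀⟩ := hGe
        have h1 := (hrsv F₀ hF₀ ρ s D hρ hs hD).1
        have h2 := hMYO n k m D e q N G (fun F => Excl F K ρ s) h1 hN0
          (fun F hF => ⟨((hG F).1 hF).2, (hrsv F hF ρ s D hρ hs hD).2.2⟩) P hP
        rw [← hN]
        refine le_trans (le_of_eq ?_) (h2.trans ?_)
        · ring
        · exact mul_le_mul_of_nonneg_right (mul_le_mul_of_nonneg_left hble hN0)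
            (Nat.cast_nonneg _)
      · push Not at hGe
        have h1 : (univ.filter fun p : Fml n k m × (Fin n → Bool) => Dist p.1 ∧ Sat p.1 p.2 ∧
            p.1 ∈ G ∧ FindP p.1 (Excl p.1 K ρ s) (P (vars p.1)) ∅) = ∅ := by
          rw [filter_eq_empty_iff]
          intro p _ hp
          exact hGe _ hp.2.2.1
        rw [h1, card_empty, Nat.cast_zero, zero_mul, zero_mul]
        have := guess_pos n k m
        positivity

end Pool.Agent.H47.PL
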