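import Pool.Agent.H47.PL.Targets2
import Pool.Agent.H47.PL.FIN

/-!
Random k-CNFs and search at the scale of SETH (MP_c62aed_lc): second part: everything together.
-/

set_option autoImplicit false

namespace Pool.Agent.H47.PL

open Finset Pool.Agent.H97.RK

theorem four_num (n : ℝ) (a b c T : ℝ) (hn : 0 ≤ n) (h : a ≤ b + c) (h1 : 4 * n * b ≤ 3 * T)
    (h2 : 4 * n * c ≤ T) : n * a ≤ T := by
  have h3 := mul_le_mul_of_nonneg_left h hn
  nlinarith

theorem pf_FI2 : T_FI2 := by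
  classical
  intro hRSV hSEQ hDR2 hMYO hMYU hFRE hLOC hWUN hWPL hFN2 ε Γ hε
  obtain ⟨η, hη, hη1, hηε⟩ : ∃ η : ℝ, 0 < η ∧ η ≤ 1 ∧ 4 * η ≤ ε := by
    refine ⟨min ε 1 / 4, by positivity, ?_, ?_⟩
    · have := min_le_right ε 1
      linarith
    · have := min_le_left ε 1
      linarith
  obtain ⟨α, δ, Γ', hα, hα1, hδ, hΓ', K₄, hloc⟩ := hLOC ε Γ hε
  obtain ⟨K₅, hK₅, hwun⟩ := hWUN α δ Γ' hα hα1 hδ hΓ'
  obtain ⟨K₆, hK₆, hwpl⟩ := hWPL α δ Γ' hα hα1 hδ hΓ'
  obtain ⟨ε₁, hε₁, hε₁η, K₁, hfre⟩ := hFRE η hη hη1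
  obtain ⟨K₂, hK₂, hfnp⟩ := hFN2 ε₁ η hε₁ hη
  obtain ⟨K₃, hK₃⟩ := exists_nat_ge (1 / η)
  obtain ⟨K, hKdef⟩ : ∃ K : ℕ, K = K₁ + K₂ + K₃ + K₄ + K₅ + K₆ := ⟨_, rfl⟩
  have hK1 : 1 ≤ K := by omega
  refine ⟨K, hK1, fun k n m hKk hKn hm => ?_⟩
  have hKn' : K ≤ n := (Nat.le_mul_of_pos_right K (by omega)).trans hKn
  have hn1 : 1 ≤ n := by omega
  have hn0 : (0 : ℝ) < n := by exact_mod_cast hn1
  have hηn : 1 ≤ η * n := by
    have h1 : (K₃ : ℝ) ≤ n := by
      have : K₃ ≤ n := by omega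
      exact_mod_cast this
    have h2 : 1 / η ≤ n := hK₃.trans h1
    rw [div_le_iff₀ hη] at h2
    linarith
  obtain ⟨j, t, d, e, s₀, hd1, hed, hte, hA, hB, hbad⟩ := hfnp K k n (by omega) hKk hKn
  obtain ⟨hbad, hbad2⟩ := hbad m hm
  have hflat := hwun K k n m (by omega) hKk hKn hm
  have hflat2 := hwpl K k n m (by omega) hKk hKn hm
  obtain ⟨N, hN⟩ : ∃ N : ℝ, N = (2 : ℝ) ^ (η * n) * (2 ^ n * guess n k m) := ⟨_, rfl⟩
  rw [← hN] at hbad hbad2
  obtain ⟨NB, hNB⟩ : ∃ NB : ℝ, NB = (2 : ℝ) ^ (δ * n) * (2 ^ n * guess n k m) := ⟨_, rfl⟩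
  rw [← hNB] at hflat hflat2
  have hN0 : 0 ≤ N := by
    rw [hN]
    have := guess_pos n k m
    positivity
  have hblt : 1 ≤ (bl n t : ℝ) := by
    have : 1 ≤ bl n t := by
      unfold bl
      calc 1 = n.choose 0 := (Nat.choose_zero_right n).symm
        _ ≤ _ := single_le_sum (f := fun i => n.choose i) (fun i _ => Nat.zero_le _)
            (mem_range.2 (Nat.succ_pos _))
    exact_mod_cast this
  have hble : (bl n e : ℝ) ≤ (2 : ℝ) ^ (η * n) := by
    have h1 : bl n e ≤ bl n (d + 2 * t) := by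
      unfold bl
      exact sum_le_sum_of_subset (range_subset_range.2 (by omega))
    have h2 : (bl n e : ℝ) ≤ bl n (d + 2 * t) := by exact_mod_cast h1
    have h3 : (0 : ℝ) ≤ bl n (d + 2 * t) := Nat.cast_nonneg _
    have h4 : (bl n (d + 2 * t) : ℝ) ≤ 2 * (bl n (d + 2 * t) : ℝ) * bl n t := by nlinarith
    refine (h2.trans h4).trans (hB.trans ?_)
    exact Real.rpow_le_rpow_of_exponent_le (by norm_num)
      (mul_le_mul_of_nonneg_right hε₁η hn0.le)
  obtain ⟨Fl, hFl⟩ : ∃ Fl : Fml n k m → Prop, ∀ F, Fl F ↔ ∃ B, Loc F α Γ' B ∧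
      (B.card : ℝ) ≤ NB := ⟨_, fun _ => Iff.rfl⟩
  obtain ⟨G, hG⟩ : ∃ G : Set (Fml n k m), ∀ F, F ∈ G ↔
      ((Par F j t d e s₀ ∧ (nsol F : ℝ) ≤ N) ∧ Fl F) :=
    ⟨{F | (Par F j t d e s₀ ∧ (nsol F : ℝ) ≤ N) ∧ Fl F}, fun _ => Iff.rfl⟩
  have hrsv : ∀ F ∈ G, ∀ (ρ : ℝ) (s D : ℕ), 0 ≤ ρ → 1 ≤ s →
      cost n s ρ * (2 : ℝ) ^ D * (2 : ℝ) ^ (η * n) < (2 : ℝ) ^ n →
      D ≤ n ∧ (e : ℝ) ≤ η * n ∧ ∃ Res, Rsv F D e (Excl F K ρ s) Res := by
    intro F hF ρ s D hρ hs hD
    obtain ⟨h1, h2, h3⟩ := hfre n D d e t s (2 * t * (n * (k / K) / d + 1)) ρ (by omega) hρ hs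
      hed hte hA hB hD
    exact ⟨by omega, h2, hRSV n k m F j t d e s₀ ((hG F).1 hF).1.1 hd1 K s D ρ hK1 hρ h1 h3⟩
  refine ⟨G, ?_, ?_, ?_, ?_, ?_⟩
  · rw [natcard_filter, natcard_filter]
    refine four_num _ _ _ _ _ hn0.le ?_ hbad2 hflat
    have h1 : (univ.filter fun F : Fml n k m => Dist F ∧ F ∉ G) ⊆
        (univ.filter fun F : Fml n k m => Dist F ∧
          ¬ (Par F j t d e s₀ ∧ (nsol F : ℝ) ≤ N)) ∪
        (univ.filter fun F : Fml n k m => Dist F ∧ ¬ ∃ B, Loc F α Γ' B ∧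
          (B.card : ℝ) ≤ NB) := by
      intro F hF
      rw [mem_filter] at hF
      rw [mem_union, mem_filter, mem_filter, ← hFl]
      obtain ⟨-, h2, h3⟩ := hF
      rw [hG, not_and_or] at h3
      rcases h3 with h3 | h3
      · exact Or.inl ⟨mem_univ _, h2, h3⟩
      · exact Or.inr ⟨mem_univ _, h2, h3⟩
    exact_mod_cast (card_le_card h1).trans (card_union_le _ _)
  · rw [natcard_filter, natcard_filter]
    refine four_num _ _ _ _ _ hn0.le ?_ hbad hflat2
    have h1 : (univ.filter fun p : Fml n k m × (Fin n → Bool) =>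
          Dist p.1 ∧ Sat p.1 p.2 ∧ p.1 ∉ G) ⊆
        (univ.filter fun p : Fml n k m × (Fin n → Bool) => Dist p.1 ∧ Sat p.1 p.2 ∧
          ¬ (Par p.1 j t d e s₀ ∧ (nsol p.1 : ℝ) ≤ N)) ∪
        (univ.filter fun p : Fml n k m × (Fin n → Bool) => Dist p.1 ∧ Sat p.1 p.2 ∧
          ¬ ∃ B, Loc p.1 α Γ' B ∧ (B.card : ℝ) ≤ NB) := by
      intro p hp
      rw [mem_filter] at hp
      rw [mem_union, mem_filter, mem_filter, ← hFl]
      obtain ⟨-, h2, h4, h3⟩ := hp
      rw [hG, not_and_or] at h3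
      rcases h3 with h3 | h3
      · exact Or.inl ⟨mem_univ _, h2, h4, h3⟩
      · exact Or.inr ⟨mem_univ _, h2, h4, h3⟩
    exact_mod_cast (card_le_card h1).trans (card_union_le _ _)
  · intro F hF
    refine ⟨?_, ?_, ?_⟩
    · intro ρ s hρ hs T
      rw [natcard_filter]
      refine fin_num n k m s ρ ε η _ _ hρ hs hηn hηε (Nat.cast_nonneg _) ?_ ?_
      · rw [Nat.card_eq_fintype_card]
        exact_mod_cast card_le_univ _
      · intro D hD
        obtain ⟨h1, h2, Res, h3⟩ := hrsv F hF ρ s D hρ hs hD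
        have h4 := hDR2 n k m F D e _ Res h3 h1 T
        have h5 : ((univ.filter fun ω => FindC F (Excl F K ρ s) ω T ∅).card : ℝ) * 2 ^ D ≤
            nsol F * 2 ^ e * Fintype.card (Finset (Fin n × Bool) → Bool) := by
          exact_mod_cast h4
        refine h5.trans ?_
        rw [Nat.card_eq_fintype_card]
        refine mul_le_mul_of_nonneg_right ?_ (Nat.cast_nonneg _)
        rw [← hN]
        refine mul_le_mul ((hG F).1 hF).1.2 ?_ (by positivity) hN0
        rw [← Real.rpow_natCast]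
        exact Real.rpow_le_rpow_of_exponent_le (by norm_num) h2
    · obtain ⟨B, hB1, hB2⟩ := (hFl F).1 ((hG F).1 hF).2
      rw [hNB] at hB2
      exact hloc n k m F B (by omega) (by omega) hB1 hB2
    · intro ρ s hρ hs τ hτ l hl hc
      have h1 : cost n s ρ * (2 : ℝ) ^ l.length * (2 : ℝ) ^ (η * n) < (2 : ℝ) ^ n := by
        refine (mul_le_mul_of_nonneg_right hc (by positivity)).trans_lt ?_
        rw [← Real.rpow_add (by norm_num), ← Real.rpow_natCast]
        refine Real.rpow_lt_rpow_of_exponent_lt (by norm_num) ?_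
        nlinarith
      obtain ⟨-, h2, Res, h3⟩ := hrsv F hF ρ s l.length hρ hs h1
      have h4 := hSEQ n k m F l.length e _ Res h3 τ hτ l hl le_rfl
      have h5 : ((((range l.length).filter fun i => ∃ v, l[i]? = some v ∧
          Excl F K ρ s (insert (v, !τ v)
            ((l.take i).toFinset.image fun u => (u, τ u)))).card : ℕ) : ℝ) ≤ (e : ℝ) := by
        exact_mod_cast h4
      refine h5.trans (h2.trans ?_)
      nlinarith
  · intro ρ s q hρ hs P hP
    rw [natcard_filter, natcard_filter]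
    have hq1 : (1 - (1 / 2 : ℝ) ^ k) ^ q ≤ 1 := by
      have h1 : (1 / 2 : ℝ) ^ k ≤ 1 := pow_le_one₀ (by norm_num) (by norm_num)
      have h2 : (0 : ℝ) ≤ (1 / 2 : ℝ) ^ k := by positivity
      exact pow_le_one₀ (by linarith) (by linarith)
    refine fin_num n k m s ρ ε η _ _ hρ hs hηn hηε (Nat.cast_nonneg _) ?_ ?_
    · refine (mul_le_of_le_one_right (Nat.cast_nonneg _) hq1).trans ?_
      refine Nat.cast_le.2 (card_le_card fun p hp => ?_)
      rw [mem_filter] at hp ⊢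
      exact ⟨mem_univ _, hp.2.1, hp.2.2.1⟩
    · intro D hD
      by_cases hGe : ∃ F, F ∈ G
      · obtain ⟨F₀, hF₀⟩ := hGe
        have h1 := (hrsv F₀ hF₀ ρ s D hρ hs hD).1
        have h2 := hMYO n k m D e q N G (fun F => Excl F K ρ s) h1 hN0
          (fun F hF => ⟨((hG F).1 hF).1.2, (hrsv F hF ρ s D hρ hs hD).2.2⟩) P hP
        rw [← hN]
        refine le_trans (le_of_eq ?_) (h2.trans ?_)
        · ring
        · exact mul_le_mul_of_nonneg_right (mul_le_mul_of_nonneg_left hble hN0)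
            (Nat.cast_nonneg _)
      · push Not at hGe
        have h1 : (univ.filter fun p : Fml n k m × (Fin n → Bool) => Dist p.1 ∧ Sat p.1 p.2 ∧
            p.1 ∈ G ∧ FindP p.1 (Excl p.1 K ρ s) (P (vars p.1)) ∅) = ∅ := by
          rw [filter_eq_empty_iff]
          intro p _ hp
          exact hGe _ hp.2.2.1
        rw [h1, card_empty, Nat.cast_zero, zero_mul, zero_mul]
        have := guess_pos n k m
        positivity
  · intro ρ s q hρ hs P hP
    rw [natcard_filter, natcard_filter]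
    have hq1 : (1 - (1 / 2 : ℝ) ^ k) ^ q ≤ 1 := by
      have h1 : (1 / 2 : ℝ) ^ k ≤ 1 := pow_le_one₀ (by norm_num) (by norm_num)
      have h2 : (0 : ℝ) ≤ (1 / 2 : ℝ) ^ k := by positivity
      exact pow_le_one₀ (by linarith) (by linarith)
    refine fin_num n k m s ρ ε η _ _ hρ hs hηn hηε (Nat.cast_nonneg _) ?_ ?_
    · refine (mul_le_of_le_one_right (Nat.cast_nonneg _) hq1).trans ?_
      refine Nat.cast_le.2 (card_le_card fun F hF => ?_)
      rw [mem_filter] at hF ⊢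
      exact ⟨mem_univ _, hF.2.1⟩
    · intro D hD
      by_cases hGe : ∃ F, F ∈ G
      · obtain ⟨F₀, hF₀⟩ := hGe
        have h1 := (hrsv F₀ hF₀ ρ s D hρ hs hD).1
        have h2 := hMYU n k m D e q G (fun F => Excl F K ρ s) h1
          (fun F hF => (hrsv F hF ρ s D hρ hs hD).2.2) P hP
        have h3 : (2 : ℝ) ^ n * (1 - (1 / 2 : ℝ) ^ k) ^ m ≤
            (2 : ℝ) ^ (η * n) * (2 ^ n * guess n k m) := by
          have h4 : (1 - (1 / 2 : ℝ) ^ k) ^ m ≤ guess n k m := by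
            unfold guess
            have : (0 : ℝ) ≤ (1 / 2 : ℝ) ^ n := by positivity
            linarith
          have h5 : (1 : ℝ) ≤ (2 : ℝ) ^ (η * n) :=
            Real.one_le_rpow (by norm_num) (by positivity)
          have h6 := le_guess n k m
          have h7 : (2 : ℝ) ^ n * (1 - (1 / 2 : ℝ) ^ k) ^ m ≤ 2 ^ n * guess n k m :=
            mul_le_mul_of_nonneg_left h4 (by positivity)
          refine h7.trans ?_
          nlinarith
        refine le_trans (le_of_eq ?_) (h2.trans ?_)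
        · ring
        · refine mul_le_mul_of_nonneg_right ?_ (Nat.cast_nonneg _)
          refine mul_le_mul h3 hble (Nat.cast_nonneg _) ?_
          rw [← hN]
          exact hN0
      · push Not at hGe
        have h1 : (univ.filter fun F : Fml n k m => Dist F ∧ F ∈ G ∧
            FindP F (Excl F K ρ s) (P (vars F)) ∅) = ∅ := by
          rw [filter_eq_empty_iff]
          intro F _ hF
          exact hGe _ hF.2.1
        rw [h1, card_empty, Nat.cast_zero, zero_mul, zero_mul]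
        have := guess_pos n k m
        positivity

end Pool.Agent.H47.PL
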