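import Pool.Agent.H97.RK.Stmt2

/-!
Planted random k-CNFs and backtracking search at the scale of SETH (MP_c62aed_lc): the definitions
used by the statement.
-/

set_option autoImplicit false

namespace Pool.Agent.H47.PL

open Finset Pool.Agent.H97.RK

/-- The assignment `τ` satisfies `F`: every clause contains a literal which is true under `τ`. -/
def Sat {n k m : ℕ} (F : Fml n k m) (τ : Fin n → Bool) : Prop :=
  ∀ c, ∃ i, τ (F c i).1 = (F c i).2

/-- A partial assignment `L` is a finite set of pairs (variable, value). It satisfies `F` if every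
clause contains a literal which is true under `L`. -/
def Done {n k m : ℕ} (F : Fml n k m) (L : Finset (Fin n × Bool)) : Prop :=
  ∀ c, ∃ i, F c i ∈ L

/-- `L` is excluded: there is a resolution derivation from `F` (a DAG, with weakening) with at most
`s` lines, in which on each path from the line `r` at most `ρ n` variables are resolved more than
`k / K` times, and all literals of the line `r` are false under `L`. -/
def Excl {n k m : ℕ} (F : Fml n k m) (K : ℕ) (ρ : ℝ) (s : ℕ) (L : Finset (Fin n × Bool)) :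
    Prop :=
  ∃ (S r : ℕ) (line : ℕ → Clause n) (rule : ℕ → Rule n), S ≤ s ∧ r < S ∧
    (∀ i, i < S → Correct F line i (rule i)) ∧ (∀ l ∈ line r, (l.1, !l.2) ∈ L) ∧
    ∀ (i : ℕ) (l : List (Fin n)), Path rule r i l →
      ((univ.filter fun v => k < K * l.count v).card : ℝ) ≤ ρ * n

/-- A search tree: at a node the variable `v` is set, `f b` is the subtree for the value `b`. -/
inductive Tree (n : ℕ) : Type
  | leaf : Tree n
  | node (v : Fin n) (f : Bool → Tree n) : Tree n

/-- The search succeeds from a node of the tree at which the partial assignment is `L`. At a leaf: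
`L` satisfies `F`. At a node: `ω L` is the first value of `v`, and the search may pass to the other
value if `L` with the first value is excluded (`Ex`); if `v` has a value, this value is kept. -/
def Find {n k m : ℕ} (F : Fml n k m) (Ex : Finset (Fin n × Bool) → Prop)
    (ω : Finset (Fin n × Bool) → Bool) : Tree n → Finset (Fin n × Bool) → Prop
  | Tree.leaf, L => Done F L
  | Tree.node v f, L => ∃ b, (v, !b) ∉ L ∧ ((v, b) ∈ L ∨ ω L = b ∨ Ex (insert (v, !b) L)) ∧
      Find F Ex ω (f b) (insert (v, b) L)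

/-- A protocol: it reads the signs of the clause `c` (and goes on with `f x` if they are `x`), or
sets the variable `v`, with first value `a` (and goes on with `f b` if the value is `b`). -/
inductive Prot (n k m : ℕ) : Type
  | leaf : Prot n k m
  | read (c : Fin m) (f : (Fin k → Bool) → Prot n k m) : Prot n k m
  | node (v : Fin n) (a : Bool) (f : Bool → Prot n k m) : Prot n k m

/-- On each path of the protocol at most `q` clauses are read. -/
def Reads {n k m : ℕ} : Prot n k m → ℕ → Prop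
  | Prot.leaf, _ => True
  | Prot.read _ f, q => 1 ≤ q ∧ ∀ x, Reads (f x) (q - 1)
  | Prot.node _ _ f, q => ∀ b, Reads (f b) q

/-- The search with a protocol succeeds, as `Find`. -/
def FindP {n k m : ℕ} (F : Fml n k m) (Ex : Finset (Fin n × Bool) → Prop) :
    Prot n k m → Finset (Fin n × Bool) → Prop
  | Prot.leaf, L => Done F L
  | Prot.read c f, L => FindP F Ex (f fun i => (F c i).2) L
  | Prot.node v a f, L => ∃ b, (v, !b) ∉ L ∧ ((v, b) ∈ L ∨ a = b ∨ Ex (insert (v, !b) L)) ∧
      FindP F Ex (f b) (insert (v, b) L)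

/-- the formula without the signs -/
def vars {n k m : ℕ} (F : Fml n k m) : Fin m → Fin k → Fin n := fun c i => (F c i).1

/-- `cost = min (s 2 ^ (ρ n)) (s ^ (12 / 7))` -/
noncomputable def cost (n s : ℕ) (ρ : ℝ) : ℝ :=
  min (s * (2 : ℝ) ^ (ρ * n)) ((s : ℝ) ^ (12 / 7 : ℝ))

/-- `guess = 2 ^ (- n) + (1 - 2 ^ (- k)) ^ m` -/
noncomputable def guess (n k m : ℕ) : ℝ := (1 / 2 : ℝ) ^ n + (1 - (1 / 2 : ℝ) ^ k) ^ m

open Classical in
/-- (1) Let `τ` satisfy `F`, and let the variables of the list `l` be set to their values under `τ`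
in this order. For all but `ε n` of them the opposite value is not excluded. -/
def Wrong {n k m : ℕ} (ε : ℝ) (K : ℕ) (F : Fml n k m) : Prop :=
  ∀ (ρ : ℝ) (s : ℕ), 0 ≤ ρ → 1 ≤ s → ∀ τ, Sat F τ → ∀ l : List (Fin n), l.Nodup →
    cost n s ρ * (2 : ℝ) ^ l.length ≤ (2 : ℝ) ^ ((1 - ε) * n) →
    (((range l.length).filter fun i => ∃ v, l[i]? = some v ∧
      Excl F K ρ s (insert (v, !τ v) ((l.take i).toFinset.image fun u => (u, τ u)))).card : ℝ) ≤
      ε * n

/-- (2) For every tree and random first values, the probability that the search succeeds is at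
most `2 ^ (ε n) cost guess`. -/
def Drunken {n k m : ℕ} (ε : ℝ) (K : ℕ) (F : Fml n k m) : Prop :=
  ∀ (ρ : ℝ) (s : ℕ), 0 ≤ ρ → 1 ≤ s → ∀ T : Tree n,
    (Nat.card {ω : Finset (Fin n × Bool) → Bool // Find F (Excl F K ρ s) ω T ∅} : ℝ) ≤
      (2 : ℝ) ^ (ε * n) * cost n s ρ * guess n k m *
        Nat.card (Finset (Fin n × Bool) → Bool)

/-- (3) For every protocol which may depend on the formula without the signs and reads at most `q`
clauses, the fraction of the pairs `(F, σ)` with `F ∈ G` for which the search succeeds is at most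
`2 ^ (ε n) cost guess (1 - 2 ^ (- k)) ^ (- q)`. -/
def Myopic {n k m : ℕ} (ε : ℝ) (K : ℕ) (G : Set (Fml n k m)) : Prop :=
  ∀ (ρ : ℝ) (s q : ℕ), 0 ≤ ρ → 1 ≤ s → ∀ P : (Fin m → Fin k → Fin n) → Prot n k m,
    (∀ g, Reads (P g) q) →
    (Nat.card {p : Fml n k m × (Fin n → Bool) // Dist p.1 ∧ Sat p.1 p.2 ∧ p.1 ∈ G ∧
      FindP p.1 (Excl p.1 K ρ s) (P (vars p.1)) ∅} : ℝ) * (1 - (1 / 2 : ℝ) ^ k) ^ q ≤
      (2 : ℝ) ^ (ε * n) * cost n s ρ * guess n k m *
        Nat.card {p : Fml n k m × (Fin n → Bool) // Dist p.1 ∧ Sat p.1 p.2}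

/-- The final statement. -/
def Main : Prop :=
  ∀ ε : ℝ, 0 < ε → ∃ K : ℕ, 1 ≤ K ∧ ∀ k n m : ℕ, K ≤ k → K * k ≤ n →
    (m : ℝ) ≤ (2 : ℝ) ^ ((1 + 1 / (K : ℝ)) * k) * n → ∃ G : Set (Fml n k m),
    (n : ℝ) * Nat.card {p : Fml n k m × (Fin n → Bool) // Dist p.1 ∧ Sat p.1 p.2 ∧ p.1 ∉ G} ≤
      Nat.card {p : Fml n k m × (Fin n → Bool) // Dist p.1 ∧ Sat p.1 p.2} ∧
    (∀ F ∈ G, Wrong ε K F ∧ Drunken ε K F) ∧ Myopic ε K G

end Pool.Agent.H47.PL
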