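import Pool.Agent.H47.PL.Stmt

/-!
Random k-CNFs and search at the scale of SETH (MP_c62aed_lc): further definitions used by the
statement: search trees which depend on the coins, local search.
-/

set_option autoImplicit false

namespace Pool.Agent.H47.PL

open Finset Pool.Agent.H97.RK

/-- A search tree: at a node the variable `v` is set, `f a b` is the subtree if the first value is
`a` and the value taken is `b`. -/
inductive TreeC (n : ℕ) : Type
  | leaf : TreeC n
  | node (v : Fin n) (f : Bool → Bool → TreeC n) : TreeC n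

/-- The search succeeds from a node of the tree at which the partial assignment is `L`. At a leaf:
`L` satisfies `F`. At a node with a variable `v` which has no value: `ω L` is the first value of
`v`, and the search may pass to the other value if `L` with the first value is excluded (`Ex`). If
`v` has a value, it is kept. -/
def FindC {n k m : ℕ} (F : Fml n k m) (Ex : Finset (Fin n × Bool) → Prop)
    (ω : Finset (Fin n × Bool) → Bool) : TreeC n → Finset (Fin n × Bool) → Prop
  | TreeC.leaf, L => Done F L
  | TreeC.node v f, L =>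
    (∃ b, (v, b) ∈ L ∧ FindC F Ex ω (f b b) L) ∨
    ((∀ b, (v, b) ∉ L) ∧ ∃ b, (ω L = b ∨ Ex (insert (v, !b) L)) ∧
      FindC F Ex ω (f (ω L) b) (insert (v, b) L))

/-- For every tree and random first values, the probability that the search succeeds is at most
`2 ^ (ε n) cost guess`. -/
def Drunken2 {n k m : ℕ} (ε : ℝ) (K : ℕ) (F : Fml n k m) : Prop :=
  ∀ (ρ : ℝ) (s : ℕ), 0 ≤ ρ → 1 ≤ s → ∀ T : TreeC n,
    (Nat.card {ω : Finset (Fin n × Bool) → Bool // FindC F (Excl F K ρ s) ω T ∅} : ℝ) ≤
      (2 : ℝ) ^ (ε * n) * cost n s ρ * guess n k m *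
        Nat.card (Finset (Fin n × Bool) → Bool)

/-- As `Myopic`, for formulas instead of pairs. -/
def MyopicU {n k m : ℕ} (ε : ℝ) (K : ℕ) (G : Set (Fml n k m)) : Prop :=
  ∀ (ρ : ℝ) (s q : ℕ), 0 ≤ ρ → 1 ≤ s → ∀ P : (Fin m → Fin k → Fin n) → Prot n k m,
    (∀ g, Reads (P g) q) →
    (Nat.card {F : Fml n k m // Dist F ∧ F ∈ G ∧
      FindP F (Excl F K ρ s) (P (vars F)) ∅} : ℝ) * (1 - (1 / 2 : ℝ) ^ k) ^ q ≤
      (2 : ℝ) ^ (ε * n) * cost n s ρ * guess n k m * Nat.card {F : Fml n k m // Dist F}

open Classical in
/-- the clauses which are violated by `y` -/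
noncomputable def vio {n k m : ℕ} (F : Fml n k m) (y : Fin n → Bool) : Finset (Fin m) :=
  univ.filter fun c => ∀ i, y (F c i).1 ≠ (F c i).2

/-- `y` with the value of `v` changed -/
def flp {n : ℕ} (y : Fin n → Bool) (v : Fin n) : Fin n → Bool := Function.update y v (!y v)

/-- A policy. Given the assignments so far (the current one is the first in the list) it either
starts again (`none`) or gives the probabilities with which the clauses are chosen. -/
abbrev Policy (n m : ℕ) : Type := List (Fin n → Bool) → Option (Fin m → ℝ)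

/-- Only clauses which are violated by the current assignment `y` are chosen, each of them with
probability at most `Γ` divided by the number of all clauses violated by `y`. -/
def Spread {n k m : ℕ} (F : Fml n k m) (Γ : ℝ) (pol : Policy n m) : Prop :=
  ∀ (y : Fin n → Bool) (h : List (Fin n → Bool)) (q : Fin m → ℝ), ¬ Sat F y →
    pol (y :: h) = some q → ∑ c, q c = 1 ∧ ∀ c, 0 ≤ q c ∧ (c ∉ vio F y → q c = 0) ∧
      q c * (vio F y).card ≤ Γ

open Classical in
/-- The probability that the local search with the policy `pol` finds a satisfying assignment in at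
most `t` steps, if `h` are the former assignments and `y` is the current one. In a step the value of
a random variable of the chosen clause is changed, or the current assignment is replaced by a
uniformly random one. -/
noncomputable def run {n k m : ℕ} (F : Fml n k m) (pol : Policy n m) :
    ℕ → List (Fin n → Bool) → (Fin n → Bool) → ℝ
  | 0, _, y => if Sat F y then 1 else 0
  | t + 1, h, y => if Sat F y then 1 else
    match pol (y :: h) with
    | none => (∑ y', run F pol t (y :: h) y') / 2 ^ n
    | some q => ∑ c, q c * ((∑ i, run F pol t (y :: h) (flp y (F c i).1)) / k)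

/-- Local search which starts with a uniformly random assignment: the probability that a satisfying
assignment is found in at most `t` steps is at most `2 ^ (ε n) (t + 1) guess`. -/
def Local {n k m : ℕ} (ε Γ : ℝ) (F : Fml n k m) : Prop :=
  ∀ pol : Policy n m, Spread F Γ pol → ∀ t : ℕ,
    (∑ y, run F pol t [] y) / 2 ^ n ≤ (2 : ℝ) ^ (ε * n) * (t + 1) * guess n k m

/-- The final statement. -/
def Main2 : Prop :=
  ∀ ε Γ : ℝ, 0 < ε → ∃ K : ℕ, 1 ≤ K ∧ ∀ k n m : ℕ, K ≤ k → K * k ≤ n →
    (m : ℝ) ≤ (2 : ℝ) ^ ((1 + 1 / (K : ℝ)) * k) * n → ∃ G : Set (Fml n k m),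
    (n : ℝ) * Nat.card {F : Fml n k m // Dist F ∧ F ∉ G} ≤ Nat.card {F : Fml n k m // Dist F} ∧
    (n : ℝ) * Nat.card {p : Fml n k m × (Fin n → Bool) // Dist p.1 ∧ Sat p.1 p.2 ∧ p.1 ∉ G} ≤
      Nat.card {p : Fml n k m × (Fin n → Bool) // Dist p.1 ∧ Sat p.1 p.2} ∧
    (∀ F ∈ G, Drunken2 ε K F ∧ Local ε Γ F ∧ Wrong ε K F) ∧ Myopic ε K G ∧ MyopicU ε K G

end Pool.Agent.H47.PL
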