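import Pool.Agent.H47.PL.Stmt2
import Pool.Agent.H47.PL.Targets

/-!
Random k-CNFs and search at the scale of SETH (MP_c62aed_lc): second part: targets.
-/

set_option autoImplicit false

namespace Pool.Agent.H47.PL

open Finset Pool.Agent.H97.RK

/-! ### Definitions -/

section

variable {n k m : ℕ}

open Classical in
/-- The formula is flat outside `B`: every assignment outside `B` violates a clause, and for every
set `D` of variables at most the fraction `1 / Γ'` of the violated clauses has more than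
`(|D| / n + α) k` positions in `D`. -/
structure Loc (F : Fml n k m) (α : ℝ) (Γ' : ℕ) (B : Finset (Fin n → Bool)) : Prop where
  low : ∀ y, y ∉ B → (vio F y).Nonempty
  exc : ∀ y, y ∉ B → ∀ D : Finset (Fin n),
    Γ' * ((vio F y).filter fun c => ((D.card : ℝ) / n + α) * k < inn F c D).card ≤
      (vio F y).card

/-- the potential -/
noncomputable def ph (n a b d : ℕ) : ℝ := 1 / ((n - 1).choose (min (a + d) b) : ℝ)

/-- the clause `g` is violated by `y` -/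
def Vi (y : Fin n → Bool) (g : Fin k → Fin n × Bool) : Prop := ∀ i, y (g i).1 ≠ (g i).2

open Classical in
/-- the clause `g` has more than `(|D| / n + α) k` positions in `D` -/
def Xc (α : ℝ) (D : Finset (Fin n)) (g : Fin k → Fin n × Bool) : Prop :=
  ((D.card : ℝ) / n + α) * k < ((univ.filter fun i => (g i).1 ∈ D).card : ℝ)

end

/-! ### The search -/

open Classical in
/-- (DR2) the probability that the search succeeds, trees which depend on the coins. -/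
def T_DR2 : Prop :=
  ∀ (n k m : ℕ) (F : Fml n k m) (D e : ℕ) (Ex : Finset (Fin n × Bool) → Prop)
    (Res : Finset (Fin n × Bool) → Finset (Fin n) → Prop), Rsv F D e Ex Res → D ≤ n →
    ∀ T : TreeC n, (univ.filter fun ω => FindC F Ex ω T ∅).card * 2 ^ D ≤
      nsol F * 2 ^ e * Fintype.card (Finset (Fin n × Bool) → Bool)

open Classical in
/-- (MYU) the protocols, uniform formulas. -/
def T_MYU : Prop :=
  ∀ (n k m D e q : ℕ) (G : Set (Fml n k m))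
    (Ex : Fml n k m → Finset (Fin n × Bool) → Prop), D ≤ n →
    (∀ F ∈ G, ∃ Res, Rsv F D e (Ex F) Res) →
    ∀ P : (Fin m → Fin k → Fin n) → Prot n k m, (∀ g, Reads (P g) q) →
    ((univ.filter fun F : Fml n k m => Dist F ∧ F ∈ G ∧
      FindP F (Ex F) (P (vars F)) ∅).card : ℝ) * (2 ^ D * (1 - (1 / 2 : ℝ) ^ k) ^ q) ≤
    (2 ^ n * (1 - (1 / 2 : ℝ) ^ k) ^ m) * bl n e *
      (univ.filter fun F : Fml n k m => Dist F).card

/-! ### Local search -/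

/-- (LPO) the potential, one step. -/
def T_LPO : Prop :=
  ∀ α : ℝ, 0 < α → α ≤ 1 / 16 → ∃ K : ℕ, ∀ (n a b d : ℕ) (p : ℝ), K ≤ n → 3 * α * n ≤ a →
    1 ≤ b → 2 * (b : ℝ) ≤ (1 - 2 * α) * n → 1 ≤ d → 0 ≤ p → p ≤ 1 →
    p ≤ (d : ℝ) / n + 2 * α →
    p * ph n a b (d - 1) + (1 - p) * ph n a b (d + 1) ≤
      ph n a b d + 1 / ((n - 1).choose b : ℝ)

/-- (LAV) the average of the potential. -/
def T_LAV : Prop :=
  ∀ (n a b : ℕ) (z : Fin n → Bool), 1 ≤ n → 2 * b ≤ n - 1 →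
    (∑ y, ph n a b (dst y z)) / 2 ^ n ≤ 2 * (n + 1) / 2 ^ n + 1 / ((n - 1).choose b : ℝ)

/-- (LNB) the numbers. -/
def T_LNB : Prop :=
  ∀ δ : ℝ, 0 < δ → ∃ α : ℝ, 0 < α ∧ α ≤ 1 / 16 ∧ ∃ K : ℕ, ∀ n : ℕ, K ≤ n → ∃ a b : ℕ,
    3 * α * n ≤ a ∧ 1 ≤ b ∧ 2 * (b : ℝ) ≤ (1 - 2 * α) * n ∧ 2 * b ≤ n - 1 ∧ a ≤ b ∧
    ((n - 1).choose a : ℝ) * (2 * (n + 1) / 2 ^ n + 1 / ((n - 1).choose b : ℝ)) ≤
      (2 : ℝ) ^ (δ * n) / 2 ^ n

/-- (LST) one step of the local search. -/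
def T_LST : Prop :=
  ∀ (n k m : ℕ) (F : Fml n k m) (α Γ : ℝ) (Γ' : ℕ) (B : Finset (Fin n → Bool)) (a b : ℕ),
    1 ≤ k → 0 < α → 1 ≤ Γ' → Γ ≤ α * Γ' → Loc F α Γ' B →
    (∀ (d : ℕ) (p : ℝ), 1 ≤ d → 0 ≤ p → p ≤ 1 → p ≤ (d : ℝ) / n + 2 * α →
      p * ph n a b (d - 1) + (1 - p) * ph n a b (d + 1) ≤
        ph n a b d + 1 / ((n - 1).choose b : ℝ)) →
    ∀ (y z : Fin n → Bool) (q : Fin m → ℝ), y ∉ B → z ∈ B → ∑ c, q c = 1 →
    (∀ c, 0 ≤ q c ∧ (c ∉ vio F y → q c = 0) ∧ q c * (vio F y).card ≤ Γ) →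
    ∑ c, q c * ((∑ i, ph n a b (dst (flp y (F c i).1) z)) / k) ≤
      ph n a b (dst y z) + 1 / ((n - 1).choose b : ℝ)

/-- (LRN) the bound by a potential. -/
def T_LRN : Prop :=
  ∀ (n k m : ℕ) (F : Fml n k m) (Γ : ℝ) (pol : Policy n m) (B : Finset (Fin n → Bool))
    (Φ : (Fin n → Bool) → ℝ) (A : ℝ), 1 ≤ k → Spread F Γ pol → (∀ y, 0 ≤ Φ y) →
    (∀ y ∈ B, 1 ≤ Φ y) → (∀ y, Sat F y → y ∈ B) → (∑ y, Φ y) / 2 ^ n ≤ A →
    (∀ (y : Fin n → Bool) (q : Fin m → ℝ), y ∉ B → ∑ c, q c = 1 →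
      (∀ c, 0 ≤ q c ∧ (c ∉ vio F y → q c = 0) ∧ q c * (vio F y).card ≤ Γ) →
      ∑ c, q c * ((∑ i, Φ (flp y (F c i).1)) / k) ≤ Φ y + A) →
    ∀ t : ℕ, (∑ y, run F pol t [] y) / 2 ^ n ≤ (t + 1) * A

/-- (LOC) flat formulas are hard for local search. -/
def T_LOC : Prop :=
  ∀ ε Γ : ℝ, 0 < ε → ∃ (α δ : ℝ) (Γ' : ℕ), 0 < α ∧ α ≤ 1 ∧ 0 < δ ∧ 1 ≤ Γ' ∧ ∃ K : ℕ,
    ∀ (n k m : ℕ) (F : Fml n k m) (B : Finset (Fin n → Bool)), K ≤ n → 1 ≤ k → Loc F α Γ' B →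
    (B.card : ℝ) ≤ (2 : ℝ) ^ (δ * n) * (2 ^ n * guess n k m) → Local ε Γ F

/-! ### Flat formulas -/

open Classical in
/-- (WTL) few clauses have many positions in `D`. -/
def T_WTL : Prop :=
  ∀ (n k : ℕ) (α : ℝ) (D : Finset (Fin n)), 1 ≤ n → k ≤ n → 0 < α → α ≤ 1 →
    (((Om n k).filter (Xc α D)).card : ℝ) ≤ Real.exp (-(α ^ 2 * k / 4)) * (Om n k).card

open Classical in
/-- (WVC) the clauses which are violated by `y`. -/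
def T_WVC : Prop :=
  ∀ (n k : ℕ) (α : ℝ) (D : Finset (Fin n)) (y σ : Fin n → Bool), 1 ≤ n → k ≤ n → 0 < α → α ≤ 1 →
    ((Om n k).filter (Vi y)).card = n.descFactorial k ∧
    ((Os n k σ).filter (Vi y)).card + (n - dst y σ).descFactorial k = n.descFactorial k ∧
    (((Om n k).filter fun g => Vi y g ∧ Xc α D g).card : ℝ) ≤
      Real.exp (-(α ^ 2 * k / 4)) * n.descFactorial k

open Classical in
/-- (WM1) few clauses with a property. -/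
def T_WM1 : Prop :=
  ∀ (X : Type) [Fintype X] (m w : ℕ) (Ω : Finset X) (p : X → Prop) (θ : ℝ), 0 < θ → θ ≤ 1 →
    ((univ.filter fun F : Fin m → X => (∀ c, F c ∈ Ω) ∧
      (univ.filter fun c => p (F c)).card < w).card : ℝ) * θ ^ w ≤
    (Ω.card - (1 - θ) * ((Ω.filter p).card : ℝ)) ^ m

open Classical in
/-- (WM2) many exceptional clauses among those with a property. -/
def T_WM2 : Prop :=
  ∀ (X : Type) [Fintype X] (m w Γ' : ℕ) (Ω : Finset X) (p p' : X → Prop) (s R : ℝ),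
    0 < s → s ≤ 1 → 1 ≤ R → 1 ≤ s ^ (2 * Γ') * R → (∀ x, p' x → p x) →
    s * ((Ω.filter p).card : ℝ) + s * R * ((Ω.filter p').card : ℝ) ≤ (Ω.filter p).card →
    ((univ.filter fun F : Fin m → X => (∀ c, F c ∈ Ω) ∧ w ≤ (univ.filter fun c => p (F c)).card ∧
      (univ.filter fun c => p (F c)).card < Γ' * (univ.filter fun c => p' (F c)).card).card : ℝ) ≤
    s ^ w * (Ω.card : ℝ) ^ m

/-- (WGN) the numbers. -/
def T_WGN : Prop :=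
  ∀ δ : ℝ, 0 < δ → ∃ θ η : ℝ, 0 < θ ∧ θ < 1 ∧ 0 < η ∧ ∃ K : ℕ, 1 ≤ K ∧ ∀ (K' k n m w : ℕ) (β : ℝ),
    K ≤ K' → K ≤ k → K ≤ n → (m : ℝ) ≤ (2 : ℝ) ^ ((1 + 1 / (K' : ℝ)) * k) * n →
    (w : ℝ) ≤ η * n + 1 → 1 - θ ≤ β → β ≤ 1 →
    (2 : ℝ) ^ n * (1 - (1 - θ) * β / 2 ^ k) ^ m ≤
      θ ^ w * ((2 : ℝ) ^ (δ * n) * (2 ^ n * guess n k m))

open Classical in
/-- (WEX) the exceptional clauses: formulas with clauses in `Ω`, assignments in `Y`. -/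
def T_WEX : Prop :=
  ∀ (α η : ℝ) (Γ' : ℕ), 0 < α → α ≤ 1 → 0 < η → 1 ≤ Γ' → ∃ K : ℕ, 1 ≤ K ∧
    ∀ (n k m w : ℕ) (Ω : Finset (Fin k → Fin n × Bool)) (Y : Finset (Fin n → Bool)), K ≤ k →
    k ≤ n → η * n ≤ w → Ω ⊆ Om n k →
    (∀ y ∈ Y, n.descFactorial k ≤ 2 * (Ω.filter (Vi y)).card) →
    8 * (n : ℝ) * (univ.filter fun F : Fml n k m => (∀ c, F c ∈ Ω) ∧ ∃ y ∈ Y, w ≤ (vio F y).card ∧
      ∃ D : Finset (Fin n), (vio F y).card < Γ' *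
        ((vio F y).filter fun c => ((D.card : ℝ) / n + α) * k < inn F c D).card).card ≤
    (Ω.card : ℝ) ^ m

open Classical in
/-- (WUN) almost all formulas are flat. -/
def T_WUN : Prop :=
  ∀ (α δ : ℝ) (Γ' : ℕ), 0 < α → α ≤ 1 → 0 < δ → 1 ≤ Γ' → ∃ K : ℕ, 1 ≤ K ∧ ∀ K' k n m : ℕ,
    K ≤ K' → K' ≤ k → K' * k ≤ n → (m : ℝ) ≤ (2 : ℝ) ^ ((1 + 1 / (K' : ℝ)) * k) * n →
    4 * (n : ℝ) * (univ.filter fun F : Fml n k m => Dist F ∧ ¬ ∃ B, Loc F α Γ' B ∧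
      (B.card : ℝ) ≤ (2 : ℝ) ^ (δ * n) * (2 ^ n * guess n k m)).card ≤
    (univ.filter fun F : Fml n k m => Dist F).card

open Classical in
/-- (WPL) almost all planted formulas are flat. -/
def T_WPL : Prop :=
  ∀ (α δ : ℝ) (Γ' : ℕ), 0 < α → α ≤ 1 → 0 < δ → 1 ≤ Γ' → ∃ K : ℕ, 1 ≤ K ∧ ∀ K' k n m : ℕ,
    K ≤ K' → K' ≤ k → K' * k ≤ n → (m : ℝ) ≤ (2 : ℝ) ^ ((1 + 1 / (K' : ℝ)) * k) * n →
    4 * (n : ℝ) * (univ.filter fun p : Fml n k m × (Fin n → Bool) => Dist p.1 ∧ Sat p.1 p.2 ∧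
      ¬ ∃ B, Loc p.1 α Γ' B ∧
        (B.card : ℝ) ≤ (2 : ℝ) ^ (δ * n) * (2 ^ n * guess n k m)).card ≤
    (univ.filter fun p : Fml n k m × (Fin n → Bool) => Dist p.1 ∧ Sat p.1 p.2).card

/-! ### The end -/

open Classical in
/-- (FN2) the bad pairs and the bad formulas. -/
def T_FN2 : Prop :=
  ∀ ε η : ℝ, 0 < ε → 0 < η → ∃ K : ℕ, 1 ≤ K ∧ ∀ K' k n : ℕ, K ≤ K' → K' ≤ k → K' * k ≤ n →
    ∃ j t d e s₀ : ℕ, 1 ≤ d ∧ 2 * e ≤ d ∧ 2 * t ≤ e ∧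
      (2 : ℝ) ^ (3 * d) * bl n (2 * t * (n * (k / K') / d + 1)) ≤ (2 : ℝ) ^ (ε * n) ∧
      2 * (bl n (d + 2 * t) : ℝ) * bl n t ≤ (2 : ℝ) ^ (ε * n) ∧
    ∀ m : ℕ, (m : ℝ) ≤ (2 : ℝ) ^ ((1 + 1 / (K' : ℝ)) * k) * n →
      4 * (n : ℝ) * ((univ.filter fun p : Fml n k m × (Fin n → Bool) => Dist p.1 ∧
        Sat p.1 p.2 ∧ ¬ (Par p.1 j t d e s₀ ∧ (nsol p.1 : ℝ) ≤ (2 : ℝ) ^ (η * n) *
          (2 ^ n * guess n k m))).card : ℝ) ≤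
      3 * ((univ.filter fun p : Fml n k m × (Fin n → Bool) => Dist p.1 ∧ Sat p.1 p.2).card : ℝ) ∧
      4 * (n : ℝ) * ((univ.filter fun F : Fml n k m => Dist F ∧
        ¬ (Par F j t d e s₀ ∧ (nsol F : ℝ) ≤ (2 : ℝ) ^ (η * n) *
          (2 ^ n * guess n k m))).card : ℝ) ≤
      3 * ((univ.filter fun F : Fml n k m => Dist F).card : ℝ)

/-- (FI2) everything together. -/
def T_FI2 : Prop :=
  T_RSV → T_SEQ → T_DR2 → T_MYO → T_MYU → T_FRE → T_LOC → T_WUN → T_WPL → T_FN2 → Main2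

end Pool.Agent.H47.PL
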